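import Mathlib

/-! Derivations of fields of characteristic 3: cubes, Wronskians, monomials. -/

namespace Pool.Agent.LieInf

section A

variable {E : Type*} [Field E]

theorem three_zero (E : Type*) [Field E] [CharP E 3] : (3 : E) = 0 := by
  have := CharP.cast_eq_zero E 3
  exact_mod_cast this

/-- the cube of a derivation -/
def cube [CharP E 3] (D : Derivation ℤ E E) : Derivation ℤ E E :=
  Derivation.mk' (D.toLinearMap.comp (D.toLinearMap.comp D.toLinearMap)) (by
    intro a b
    change D (D (D (a * b))) = a • D (D (D b)) + b • D (D (D a))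
    simp only [Derivation.leibniz, smul_eq_mul, map_add]
    linear_combination (D a * D (D b) + D (D a) * D b) * (three_zero E))

@[simp] theorem cube_apply [CharP E 3] (D : Derivation ℤ E E) (y : E) : cube D y = D (D (D y)) := rfl

/-- `3^s`-th powers of a derivation -/
def pw [CharP E 3] (D : Derivation ℤ E E) : ℕ → Derivation ℤ E E
  | 0 => D
  | s + 1 => cube (pw D s)

theorem pw_apply [CharP E 3] (D : Derivation ℤ E E) (s : ℕ) (y : E) : pw D s y = D^[3 ^ s] y := by
  induction s generalizing y with
  | zero => rfl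
  | succ s ih =>
    have h3 : 3 ^ (s + 1) = 3 ^ s + (3 ^ s + 3 ^ s) := by rw [pow_succ]; omega
    rw [pw, cube_apply, ih, ih, ih, h3, Function.iterate_add_apply, Function.iterate_add_apply]

theorem pw_succ [CharP E 3] (D : Derivation ℤ E E) (s : ℕ) (y : E) :
    pw D (s + 1) y = pw D s (pw D s (pw D s y)) := rfl

theorem D_cube [CharP E 3] (D : Derivation ℤ E E) (y : E) : D (y ^ 3) = 0 := by
  rw [Derivation.leibniz_pow]
  simp only [smul_eq_mul, nsmul_eq_mul]
  have : ((3 : ℕ) : E) = 0 := CharP.cast_eq_zero E 3
  rw [this, zero_mul]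

theorem D_inv (D : Derivation ℤ E E) (y : E) (hy : D y = 0) : D y⁻¹ = 0 := by
  by_cases h : y = 0
  · subst h; simp
  · have h1 : D (y * y⁻¹) = 0 := by rw [mul_inv_cancel₀ h]; simp
    rw [Derivation.leibniz, hy, smul_zero, add_zero, smul_eq_mul] at h1
    exact (mul_eq_zero.mp h1).resolve_left h

theorem D_mul_const (D : Derivation ℤ E E) {c : E} (hc : D c = 0) (y : E) :
    D (c * y) = c * D y := by
  rw [Derivation.leibniz, hc, smul_zero, add_zero, smul_eq_mul]

theorem iter_mul_const (D : Derivation ℤ E E) {c : E} (hc : D c = 0) (n : ℕ) (y : E) :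
    D^[n] (c * y) = c * D^[n] y := by
  induction n generalizing y with
  | zero => rfl
  | succ n ih => rw [Function.iterate_succ_apply, D_mul_const D hc, ih, Function.iterate_succ_apply]

theorem iter_add (D : Derivation ℤ E E) (n : ℕ) (y z : E) :
    D^[n] (y + z) = D^[n] y + D^[n] z := by
  induction n generalizing y z with
  | zero => rfl
  | succ n ih => rw [Function.iterate_succ_apply, map_add, ih, Function.iterate_succ_apply,
      Function.iterate_succ_apply]

theorem iter_zero (D : Derivation ℤ E E) (n : ℕ) : D^[n] (0 : E) = 0 := by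
  induction n with
  | zero => rfl
  | succ n ih => rw [Function.iterate_succ_apply, map_zero, ih]

theorem iter_sum (D : Derivation ℤ E E) (n : ℕ) {ι : Type*} (s : Finset ι) (f : ι → E) :
    D^[n] (∑ i ∈ s, f i) = ∑ i ∈ s, D^[n] (f i) := by
  classical
  induction s using Finset.induction_on with
  | empty => simp [iter_zero]
  | insert i s hi ih => rw [Finset.sum_insert hi, Finset.sum_insert hi, iter_add, ih]

/-- Wronskian lemma. -/
theorem wronskian (D : Derivation ℤ E E) : ∀ (r : ℕ) (e : Fin r → E),
    (∀ c : Fin r → E, (∀ j, D (c j) = 0) → ∑ j, c j * e j = 0 → ∀ j, c j = 0) →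
    ∀ c : Fin r → E, (∀ i : ℕ, i < r → ∑ j, c j * D^[i] (e j) = 0) → ∀ j, c j = 0 := by
  intro r
  induction r with
  | zero => intro e _ c _ j; exact j.elim0
  | succ r ih =>
    intro e he c hc
    -- independence of the tail
    have he' : ∀ c : Fin r → E, (∀ j, D (c j) = 0) → ∑ j, c j * e j.succ = 0 → ∀ j, c j = 0 := by
      intro c' hc' hs j
      have h1 := he (Fin.cons 0 c') (by
        intro j
        refine Fin.cases ?_ (fun j => ?_) j
        · simp
        · simpa using hc' j) (by
        rw [Fin.sum_univ_succ]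
        simpa using hs) j.succ
      simpa using h1
    by_cases h0 : c 0 = 0
    · have h2 := ih (fun j => e j.succ) he' (fun j => c j.succ) (by
        intro i hi
        have := hc i (by omega)
        rw [Fin.sum_univ_succ, h0, zero_mul, zero_add] at this
        exact this)
      intro j
      refine Fin.cases h0 (fun j => h2 j) j
    · exfalso
      -- normalise
      let b : Fin (r + 1) → E := fun j => (c 0)⁻¹ * c j
      have hb0 : b 0 = 1 := inv_mul_cancel₀ h0
      have hb : ∀ i : ℕ, i < r + 1 → ∑ j, b j * D^[i] (e j) = 0 := by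
        intro i hi
        have : ∑ j, b j * D^[i] (e j) = (c 0)⁻¹ * ∑ j, c j * D^[i] (e j) := by
          rw [Finset.mul_sum]
          apply Finset.sum_congr rfl
          intro j _
          simp only [b]; ring
        rw [this, hc i hi, mul_zero]
      have hD : ∀ i : ℕ, i < r → ∑ j, D (b j) * D^[i] (e j) = 0 := by
        intro i hi
        have h1 : D (∑ j, b j * D^[i] (e j)) = 0 := by rw [hb i (by omega), map_zero]
        rw [map_sum] at h1
        have h2 : ∑ j, D (b j * D^[i] (e j)) =
            ∑ j, b j * D^[i + 1] (e j) + ∑ j, D (b j) * D^[i] (e j) := by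
          rw [← Finset.sum_add_distrib]
          apply Finset.sum_congr rfl
          intro j _
          rw [Derivation.leibniz, Function.iterate_succ_apply', smul_eq_mul, smul_eq_mul]
          ring
        rw [h2, hb (i + 1) (by omega), zero_add] at h1
        exact h1
      have hDb0 : D (b 0) = 0 := by rw [hb0]; simp
      have h3 := ih (fun j => e j.succ) he' (fun j => D (b j.succ)) (by
        intro i hi
        have := hD i hi
        rw [Fin.sum_univ_succ, hDb0, zero_mul, zero_add] at this
        exact this)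
      have h4 : ∀ j, D (b j) = 0 := fun j => Fin.cases hDb0 (fun j => h3 j) j
      have h5 := he b h4 (by simpa using hb 0 (by omega)) 0
      rw [hb0] at h5
      exact one_ne_zero h5

end A

/-! ### monomials -/

/-- multi-indices -/
def I : ℕ → Type
  | 0 => Unit
  | n + 1 => I n × Fin 3

instance instFintypeI : (n : ℕ) → Fintype (I n)
  | 0 => inferInstanceAs (Fintype Unit)
  | n + 1 => @instFintypeProd _ _ (instFintypeI n) _

instance instDecI : (n : ℕ) → DecidableEq (I n)
  | 0 => inferInstanceAs (DecidableEq Unit)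
  | n + 1 => @instDecidableEqProd _ _ (instDecI n) _

theorem card_I (n : ℕ) : Fintype.card (I n) = 3 ^ n := by
  induction n with
  | zero => rfl
  | succ n ih =>
    have : Fintype.card (I (n + 1)) = Fintype.card (I n) * Fintype.card (Fin 3) :=
      Fintype.card_prod (I n) (Fin 3)
    rw [this, ih, Fintype.card_fin, pow_succ]

/-- monomials -/
def mon {E : Type*} [Field E] (z : ℕ → E) : (n : ℕ) → I n → E
  | 0, _ => 1
  | n + 1, m => mon z n m.1 * z n ^ (m.2 : ℕ)

theorem mon_succ {E : Type*} [Field E] (z : ℕ → E) (n : ℕ) (m : I n) (j : Fin 3) :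
    mon z (n + 1) (m, j) = mon z n m * z n ^ (j : ℕ) := rfl

theorem sum_I_succ {E : Type*} [Field E] (n : ℕ) (f : I (n + 1) → E) :
    ∑ m, f m = ∑ m : I n, f (m, 0) + ∑ m : I n, f (m, 1) + ∑ m : I n, f (m, 2) := by
  have : ∑ m, f m = ∑ m : I n, ∑ j : Fin 3, f (m, j) := Fintype.sum_prod_type f
  rw [this]
  simp only [Fin.sum_univ_three, Finset.sum_add_distrib]

/-- three-term independence -/
theorem three_indep {E : Type*} [Field E] [CharP E 3] (Δ : Derivation ℤ E E) {a b c y : E}
    (ha : Δ a = 0) (hb : Δ b = 0) (hc : Δ c = 0) (hy : Δ y ≠ 0)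
    (h : a + b * y + c * y ^ 2 = 0) : a = 0 ∧ b = 0 ∧ c = 0 := by
  have h1 : Δ (a + b * y + c * y ^ 2) = 0 := by rw [h, map_zero]
  rw [map_add, map_add, ha, D_mul_const Δ hb, D_mul_const Δ hc, Derivation.leibniz_pow] at h1
  simp only [smul_eq_mul, nsmul_eq_mul, Nat.cast_ofNat, zero_add, pow_one,
    Nat.add_one_sub_one] at h1
  have h2 : b + 2 * c * y = 0 := by
    have : Δ y * (b + 2 * c * y) = 0 := by linear_combination h1
    exact (mul_eq_zero.mp this).resolve_left hy
  have h3 : Δ (b + 2 * c * y) = 0 := by rw [h2, map_zero]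
  have hc2 : Δ (2 * c) = 0 := by
    rw [D_mul_const Δ (by exact_mod_cast Δ.map_natCast 2), hc, mul_zero]
  rw [map_add, hb, D_mul_const Δ hc2, zero_add] at h3
  have two_ne : (2 : E) ≠ 0 := by
    intro h2
    have h3 := three_zero E
    have : (1 : E) = 0 := by linear_combination h3 - h2
    exact one_ne_zero this
  have h4 : c = 0 := by
    have := (mul_eq_zero.mp h3).resolve_right hy
    exact (mul_eq_zero.mp this).resolve_left two_ne
  subst h4
  have h5 : b = 0 := by simpa using h2
  subst h5
  simpa using h

theorem mon_const {E : Type*} [Field E] (Δ : Derivation ℤ E E) (z : ℕ → E) (n : ℕ)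
    (h : ∀ i < n, Δ (z i) = 0) (m : I n) : Δ (mon z n m) = 0 := by
  induction n with
  | zero => simp [mon]
  | succ n ih =>
    rw [mon, D_mul_const Δ (ih (fun i hi => h i (by omega)) m.1), Derivation.leibniz_pow,
      h n (by omega)]
    simp

/-- independence of monomials over a subfield of constants -/
theorem mon_indep {E : Type*} [Field E] [CharP E 3] (K : Subfield E) (z : ℕ → E) (n : ℕ)
    (h : ∀ r < n, ∃ Δ : Derivation ℤ E E, (∀ c ∈ K, Δ c = 0) ∧ (∀ i < r, Δ (z i) = 0) ∧
      Δ (z r) ≠ 0) (c : I n → E) (hc : ∀ m, c m ∈ K) (hs : ∑ m, c m * mon z n m = 0) :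
    ∀ m, c m = 0 := by
  induction n with
  | zero =>
    intro m
    have : ∑ m, c m * mon z 0 m = c () * 1 := by
      change ∑ m : Unit, c m * mon z 0 m = _
      simp [mon]
    rw [this, mul_one] at hs
    exact hs
  | succ n ih =>
    obtain ⟨Δ, hΔK, hΔz, hΔn⟩ := h n (by omega)
    rw [sum_I_succ] at hs
    have hconst : ∀ j : Fin 3, Δ (∑ m : I n, c (m, j) * mon z n m) = 0 := by
      intro j
      rw [map_sum]
      apply Finset.sum_eq_zero
      intro m _
      rw [D_mul_const Δ (hΔK _ (hc _)), mon_const Δ z n hΔz m, mul_zero]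
    have key := three_indep Δ (hconst 0) (hconst 1) (hconst 2) hΔn (by
      rw [← hs, Finset.sum_mul, Finset.sum_mul]
      congr 1
      · congr 1
        · apply Finset.sum_congr rfl
          intro m _
          rw [mon_succ]; simp
        · apply Finset.sum_congr rfl
          intro m _
          rw [mon_succ]; simp; ring
      · apply Finset.sum_congr rfl
        intro m _
        rw [mon_succ]; simp; ring)
    have hr : ∀ r < n, ∃ Δ : Derivation ℤ E E, (∀ c ∈ K, Δ c = 0) ∧ (∀ i < r, Δ (z i) = 0) ∧
        Δ (z r) ≠ 0 := fun r hr => h r (by omega)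
    rintro ⟨m, j⟩
    fin_cases j
    · exact ih hr (fun m => c (m, 0)) (fun m => hc _) key.1 m
    · exact ih hr (fun m => c (m, 1)) (fun m => hc _) key.2.1 m
    · exact ih hr (fun m => c (m, 2)) (fun m => hc _) key.2.2 m

end Pool.Agent.LieInf
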