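import Mathlib
import Pool.Agent.LieInf.Deriv

/-! The field `Om` and its derivations. -/

open MvPolynomial

set_option linter.unusedVariables false

namespace Pool.Agent.LieInf

instance : Fact (Nat.Prime 3) := ⟨Nat.prime_three⟩

/-- The variables. -/
inductive Var : Type
  | x (n : ℕ)
  | U (n : ℕ)
  | u (n : ℕ) (m : I n)

noncomputable instance : DecidableEq Var := Classical.decEq _

abbrev A : Type := MvPolynomial Var (ZMod 3)

def Om : Type := FractionRing A

noncomputable instance : Field Om := inferInstanceAs (Field (FractionRing A))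
noncomputable instance : Algebra A Om := inferInstanceAs (Algebra A (FractionRing A))
instance : IsFractionRing A Om := inferInstanceAs (IsFractionRing A (FractionRing A))
noncomputable instance : Algebra (ZMod 3) Om :=
  ((algebraMap A Om).comp (algebraMap (ZMod 3) A)).toAlgebra
instance : IsScalarTower (ZMod 3) A Om := IsScalarTower.of_algebraMap_eq (fun _ => rfl)

instance : CharP Om 3 := charP_of_injective_algebraMap (algebraMap (ZMod 3) Om).injective 3

/-- the variables as elements of `Om` -/
noncomputable def v (s : Var) : Om := algebraMap A Om (X s)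

theorem algMap_inj : Function.Injective (algebraMap A Om) := IsFractionRing.injective A Om

theorem v_ne (s : Var) : v s ≠ 0 := by
  intro h
  have : algebraMap A Om (X s) = algebraMap A Om 0 := by rw [map_zero]; exact h
  exact X_ne_zero s (algMap_inj this)

/-- every element is a quotient -/
theorem exists_quot (y : Om) : ∃ a b : A, b ≠ 0 ∧ algebraMap A Om b * y = algebraMap A Om a := by
  obtain ⟨⟨a, b⟩, h⟩ := IsLocalization.surj (nonZeroDivisors A) y
  refine ⟨a, b, nonZeroDivisors.ne_zero b.2, ?_⟩
  rw [mul_comm]; exact h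

/-- a subfield containing the variables is everything -/
theorem subfield_top (S : Subfield Om) (h : ∀ s, v s ∈ S) (y : Om) : y ∈ S := by
  have hA : ∀ a : A, algebraMap A Om a ∈ S := by
    intro a
    induction a using MvPolynomial.induction_on with
    | C c =>
      have : algebraMap A Om (C c) = ((c.val : ℕ) : Om) := by
        rw [← MvPolynomial.algebraMap_eq, ← IsScalarTower.algebraMap_apply]
        conv_lhs => rw [← ZMod.natCast_zmod_val c]
        rw [map_natCast]
      rw [this]
      exact natCast_mem S _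
    | add p q hp hq => rw [map_add]; exact S.add_mem hp hq
    | mul_X p s hp => rw [map_mul]; exact S.mul_mem hp (h s)
  obtain ⟨a, b, hb, hy⟩ := exists_quot y
  have hb' : algebraMap A Om b ≠ 0 := by
    intro h0
    apply hb
    apply algMap_inj
    rw [h0, map_zero]
  have : y = (algebraMap A Om b)⁻¹ * algebraMap A Om a := by
    rw [← hy, inv_mul_cancel_left₀ hb']
  rw [this]
  exact S.mul_mem (S.inv_mem (hA b)) (hA a)

/-- the constants of a derivation -/
def ker (D : Derivation ℤ Om Om) : Subfield Om where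
  carrier := {y | D y = 0}
  mul_mem' := by
    intro a b ha hb
    change D (a * b) = 0
    rw [D_mul_const D ha, show D b = 0 from hb, mul_zero]
  one_mem' := by simp
  add_mem' := by
    intro a b ha hb
    change D (a + b) = 0
    rw [map_add, show D a = 0 from ha, show D b = 0 from hb, add_zero]
  zero_mem' := by simp
  neg_mem' := by
    intro a ha
    change D (-a) = 0
    rw [map_neg, show D a = 0 from ha, neg_zero]
  inv_mem' := by
    intro a ha
    exact D_inv D a ha

theorem mem_ker (D : Derivation ℤ Om Om) (y : Om) : y ∈ ker D ↔ D y = 0 := Iff.rfl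

/-- derivations are determined by the variables -/
theorem der_ext {D₁ D₂ : Derivation ℤ Om Om} (h : ∀ s, D₁ (v s) = D₂ (v s)) : D₁ = D₂ := by
  have h1 : ∀ y, y ∈ ker (D₁ - D₂) := by
    intro y
    apply subfield_top
    intro s
    rw [mem_ker, Derivation.sub_apply, h s, sub_self]
  ext y
  have := h1 y
  rw [mem_ker, Derivation.sub_apply] at this
  exact sub_eq_zero.mp this

/-- ring homomorphism attached to a derivation `A → Om` -/
noncomputable def sqz (d : Derivation (ZMod 3) A Om) : A →+* TrivSqZeroExt Om Om where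
  toFun a := (algebraMap A Om a, d a)
  map_one' := by
    apply TrivSqZeroExt.ext
    · exact map_one _
    · exact Derivation.map_one_eq_zero d
  map_mul' a b := by
    apply TrivSqZeroExt.ext
    · change algebraMap A Om (a * b) = algebraMap A Om a * algebraMap A Om b
      exact map_mul _ _ _
    · change d (a * b) = algebraMap A Om a • d b + MulOpposite.op (algebraMap A Om b) • d a
      rw [Derivation.leibniz]
      simp only [Algebra.smul_def, op_smul_eq_smul]
      rfl
  map_zero' := by
    apply TrivSqZeroExt.ext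
    · exact map_zero _
    · exact map_zero d
  map_add' a b := by
    apply TrivSqZeroExt.ext
    · exact map_add (algebraMap A Om) a b
    · exact map_add d a b

noncomputable def lft (d : Derivation (ZMod 3) A Om) : Om →+* TrivSqZeroExt Om Om :=
  IsLocalization.lift (M := nonZeroDivisors A) (g := sqz d) (by
    intro b
    rw [TrivSqZeroExt.isUnit_iff_isUnit_fst]
    change IsUnit (algebraMap A Om b)
    rw [isUnit_iff_ne_zero]
    intro h
    exact nonZeroDivisors.ne_zero b.2 (algMap_inj (by rw [h, map_zero])))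

theorem lft_alg (d : Derivation (ZMod 3) A Om) (a : A) :
    lft d (algebraMap A Om a) = (algebraMap A Om a, d a) :=
  IsLocalization.lift_eq _ a

theorem lft_fst (d : Derivation (ZMod 3) A Om) (y : Om) : (lft d y).fst = y := by
  have h : ((TrivSqZeroExt.fstHom ℤ Om Om).toRingHom.comp (lft d)) = RingHom.id Om := by
    apply IsLocalization.ringHom_ext (nonZeroDivisors A)
    ext a
    · simp [lft_alg]
    · change (lft d (algebraMap A Om _)).fst = _
      rw [lft_alg]; rfl
  exact congrArg (fun f => f y) h

/-- extension of a derivation to `Om` -/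
noncomputable def extD (d : Derivation (ZMod 3) A Om) : Derivation ℤ Om Om :=
  Derivation.mk'
    { toFun := fun y => (lft d y).snd
      map_add' := by intro a b; simp
      map_smul' := by intro c a; simp } (by
    intro a b
    change (lft d (a * b)).snd = a • (lft d b).snd + b • (lft d a).snd
    rw [map_mul, TrivSqZeroExt.snd_mul, lft_fst, lft_fst]
    simp only [op_smul_eq_smul, smul_eq_mul])

theorem extD_alg (d : Derivation (ZMod 3) A Om) (a : A) : extD d (algebraMap A Om a) = d a := by
  change (lft d (algebraMap A Om a)).snd = d a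
  rw [lft_alg]; rfl

/-- `θ_i = x_i ∂/∂x_i` -/
noncomputable def th (i : ℕ) : Derivation ℤ Om Om :=
  extD (mkDerivation (ZMod 3) (fun s => if s = Var.x i then v s else 0))

theorem th_v (i : ℕ) (s : Var) : th i (v s) = if s = Var.x i then v s else 0 := by
  rw [th]
  change extD _ (algebraMap A Om (X s)) = _
  rw [extD_alg, mkDerivation_X]

theorem th_cube (i : ℕ) (y : Om) : th i (th i (th i y)) = th i y := by
  have h : cube (th i) = th i := by
    apply der_ext
    intro s
    rw [cube_apply, th_v]
    split_ifs with h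
    · rw [th_v, if_pos h, th_v, if_pos h]
    · simp
  exact congrArg (fun D : Derivation ℤ Om Om => D y) h

theorem th_comm (i j : ℕ) (y : Om) : th i (th j y) = th j (th i y) := by
  have h : ⁅th i, th j⁆ = 0 := by
    apply der_ext
    intro s
    rw [Derivation.commutator_apply, th_v, th_v]
    simp only [Derivation.coe_zero, Pi.zero_apply]
    split_ifs with h1 h2 h2
    · rw [th_v, th_v, if_pos h1, if_pos h2, sub_self]
    · rw [th_v, if_neg h2]; simp
    · rw [th_v, if_neg h1]; simp
    · simp
  have h2 := congrArg (fun D : Derivation ℤ Om Om => D y) h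
  rw [Derivation.commutator_apply] at h2
  exact sub_eq_zero.mp h2

/-- the subfields `F_N` -/
def F (N : ℕ) : Subfield Om where
  carrier := {y | ∀ i, N ≤ i → th i y = 0}
  mul_mem' := fun {a b} ha hb i hi => (ker (th i)).mul_mem (ha i hi) (hb i hi)
  one_mem' := fun i _ => (ker (th i)).one_mem
  add_mem' := fun {a b} ha hb i hi => (ker (th i)).add_mem (ha i hi) (hb i hi)
  zero_mem' := fun i _ => (ker (th i)).zero_mem
  neg_mem' := fun {a} ha i hi => (ker (th i)).neg_mem (ha i hi)
  inv_mem' := fun a ha i hi => (ker (th i)).inv_mem (ha i hi)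

theorem mem_F {N : ℕ} {y : Om} : y ∈ F N ↔ ∀ i, N ≤ i → th i y = 0 := Iff.rfl

theorem F_mono {N M : ℕ} (h : N ≤ M) {y : Om} (hy : y ∈ F N) : y ∈ F M :=
  fun i hi => hy i (h.trans hi)

theorem x_mem_F {i N : ℕ} (h : i < N) : v (Var.x i) ∈ F N := by
  intro j hj
  rw [th_v, if_neg]
  intro he
  injection he with he
  omega

theorem U_mem_F (i N : ℕ) : v (Var.U i) ∈ F N := by
  intro j hj
  rw [th_v, if_neg]
  intro he
  cases he

theorem u_mem_F (i : ℕ) (m : I i) (N : ℕ) : v (Var.u i m) ∈ F N := by
  intro j hj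
  rw [th_v, if_neg]
  intro he
  cases he

theorem F_total (y : Om) : ∃ N, y ∈ F N := by
  let S : Subfield Om :=
    { carrier := {y | ∃ N, y ∈ F N}
      mul_mem' := by
        rintro a b ⟨N, hN⟩ ⟨M, hM⟩
        exact ⟨max N M, (F _).mul_mem (F_mono (le_max_left _ _) hN) (F_mono (le_max_right _ _) hM)⟩
      one_mem' := ⟨0, (F 0).one_mem⟩
      add_mem' := by
        rintro a b ⟨N, hN⟩ ⟨M, hM⟩
        exact ⟨max N M, (F _).add_mem (F_mono (le_max_left _ _) hN) (F_mono (le_max_right _ _) hM)⟩
      zero_mem' := ⟨0, (F 0).zero_mem⟩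
      neg_mem' := by
        rintro a ⟨N, hN⟩
        exact ⟨N, (F _).neg_mem hN⟩
      inv_mem' := by
        rintro a ⟨N, hN⟩
        exact ⟨N, (F _).inv_mem hN⟩ }
  have h : y ∈ S := by
    apply subfield_top
    intro s
    cases s with
    | x n => exact ⟨n + 1, x_mem_F (Nat.lt_succ_self n)⟩
    | U n => exact ⟨0, U_mem_F n 0⟩
    | u n m => exact ⟨0, u_mem_F n m 0⟩
  exact h

theorem th_F {i N : ℕ} {y : Om} (hy : y ∈ F N) : th i y ∈ F N := by
  intro j hj
  rw [th_comm, hy j hj, map_zero]

/-- cubes are constants -/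
theorem cube_mem (y : Om) : y ^ 3 ∈ F 0 := fun i _ => D_cube (th i) y

/-- scaling an element into the image of `A` -/
theorem scale (y : Om) : ∃ c ∈ F 0, c ≠ 0 ∧ ∃ a : A, c * y = algebraMap A Om a := by
  obtain ⟨a, b, hb, hy⟩ := exists_quot y
  have hb' : algebraMap A Om b ≠ 0 := by
    intro h0; apply hb; apply algMap_inj; rw [h0, map_zero]
  refine ⟨(algebraMap A Om b) ^ 3, cube_mem _, pow_ne_zero _ hb', b ^ 2 * a, ?_⟩
  rw [map_mul, map_pow, ← hy]
  ring

/-- decomposition of `F_{N+1}` -/
theorem decomp {N : ℕ} {y : Om} (hy : y ∈ F (N + 1)) :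
    ∃ y0 ∈ F N, ∃ y1 ∈ F N, ∃ y2 ∈ F N,
      y = y0 + y1 * v (Var.x N) + y2 * v (Var.x N) ^ 2 := by
  set x := v (Var.x N) with hxdef
  have hx0 : x ≠ 0 := v_ne _
  have hxx : th N x = x := by rw [hxdef, th_v, if_pos rfl]
  have hmem : ∀ z : Om, z ∈ F (N + 1) → th N z = 0 → z ∈ F N := by
    intro z hz h0 i hi
    rcases Nat.lt_or_ge N i with h | h
    · exact hz i h
    · have : i = N := le_antisymm h hi
      rw [this]; exact h0
  have hxF : x ∈ F (N + 1) := x_mem_F (Nat.lt_succ_self N)
  have t1 := th_F (i := N) hy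
  have t2 := th_F (i := N) t1
  set a := th N y with ha
  set b := th N a with hb
  have hc : th N b = a := by rw [hb, ha, th_cube]
  have h3 := three_zero Om
  have hinv : th N x⁻¹ = - x⁻¹ := by
    have h1 : th N (x * x⁻¹) = 0 := by rw [mul_inv_cancel₀ hx0]; simp
    rw [Derivation.leibniz, hxx, smul_eq_mul, smul_eq_mul] at h1
    have h2 : x * (th N x⁻¹ + x⁻¹) = 0 := by linear_combination h1
    have := (mul_eq_zero.mp h2).resolve_left hx0
    linear_combination this
  refine ⟨y - b, hmem _ ((F _).sub_mem hy t2) ?_, (-b - a) * x⁻¹,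
    hmem _ ((F _).mul_mem ((F _).sub_mem ((F _).neg_mem t2) t1) ((F _).inv_mem hxF)) ?_,
    (a - b) * (x⁻¹ * x⁻¹),
    hmem _ ((F _).mul_mem ((F _).sub_mem t1 t2)
      ((F _).mul_mem ((F _).inv_mem hxF) ((F _).inv_mem hxF))) ?_, ?_⟩
  · rw [map_sub, hc, ← ha, sub_self]
  · rw [Derivation.leibniz, hinv, map_sub, map_neg, hc, ← hb, smul_eq_mul, smul_eq_mul]
    ring
  · rw [Derivation.leibniz, Derivation.leibniz, hinv, map_sub, hc, ← hb]
    simp only [smul_eq_mul]
    linear_combination (-(a - b) * (x⁻¹ * x⁻¹)) * h3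
  · have e1 : (-b - a) * x⁻¹ * x = -b - a := by rw [mul_assoc, inv_mul_cancel₀ hx0, mul_one]
    have e2 : (a - b) * (x⁻¹ * x⁻¹) * x ^ 2 = a - b := by
      have : x⁻¹ * x⁻¹ * x ^ 2 = 1 := by
        field_simp
      rw [mul_assoc, this, mul_one]
    rw [e1, e2]
    linear_combination b * h3

/-- uniqueness in the decomposition -/
theorem decomp_unique {N : ℕ} {y0 y1 y2 : Om} (h0 : y0 ∈ F N) (h1 : y1 ∈ F N) (h2 : y2 ∈ F N)
    (h : y0 + y1 * v (Var.x N) + y2 * v (Var.x N) ^ 2 = 0) : y0 = 0 ∧ y1 = 0 ∧ y2 = 0 := by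
  apply three_indep (th N) (h0 N le_rfl) (h1 N le_rfl) (h2 N le_rfl) _ h
  rw [th_v, if_pos rfl]
  exact v_ne _

end Pool.Agent.LieInf
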