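import Mathlib
import Pool.Agent.LieInf.Om

/-! The derivation `δ` and leading coefficients with respect to `U_N`. -/

open MvPolynomial

set_option linter.unusedVariables false

namespace Pool.Agent.LieInf

/-- the sequence `x_i` -/
noncomputable def xs (i : ℕ) : Om := v (Var.x i)

/-- `b_N = ∑ u_{N,m} x^m` -/
noncomputable def bb (N : ℕ) : Om := ∑ m : I N, v (Var.u N m) * mon xs N m

/-- `w_N = U_N b_N` -/
noncomputable def ww (N : ℕ) : Om := v (Var.U N) * bb N

theorem mon_mem (S : Subfield Om) (z : ℕ → Om) (n : ℕ) (h : ∀ i < n, z i ∈ S) (m : I n) :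
    mon z n m ∈ S := by
  induction n with
  | zero => exact S.one_mem
  | succ n ih =>
    exact S.mul_mem (ih (fun i hi => h i (by omega)) m.1) (S.pow_mem (h n (by omega)) _)

theorem bb_mem_F (N : ℕ) : bb N ∈ F N := by
  apply (F N).sum_mem
  intro m _
  exact (F N).mul_mem (u_mem_F _ _ _) (mon_mem _ _ _ (fun i hi => x_mem_F hi) m)

theorem ww_mem_F (N : ℕ) : ww N ∈ F N := (F N).mul_mem (U_mem_F _ _) (bb_mem_F N)

/-- `δ` as a function -/
noncomputable def dlF (y : Om) : Om := ∑ᶠ i, ww i * th i y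

theorem dlF_eq {N : ℕ} {y : Om} (hy : y ∈ F N) : dlF y = ∑ i ∈ Finset.range N, ww i * th i y := by
  apply finsum_eq_sum_of_support_subset
  intro i hi
  rw [Finset.coe_range, Set.mem_Iio]
  by_contra hcon
  apply hi
  change ww i * th i y = 0
  rw [hy i (not_lt.mp hcon), mul_zero]

theorem F_common (a b : Om) : ∃ N, a ∈ F N ∧ b ∈ F N := by
  obtain ⟨N, hN⟩ := F_total a
  obtain ⟨M, hM⟩ := F_total b
  exact ⟨max N M, F_mono (le_max_left _ _) hN, F_mono (le_max_right _ _) hM⟩

/-- the derivation `δ` -/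
noncomputable def dl : Derivation ℤ Om Om :=
  Derivation.mk'
    (AddMonoidHom.toIntLinearMap
      { toFun := dlF
        map_zero' := by
          rw [dlF_eq (F 0).zero_mem]; simp
        map_add' := by
          intro a b
          obtain ⟨N, ha, hb⟩ := F_common a b
          rw [dlF_eq ha, dlF_eq hb, dlF_eq ((F N).add_mem ha hb), ← Finset.sum_add_distrib]
          apply Finset.sum_congr rfl
          intro i _
          rw [map_add, mul_add] }) (by
    intro a b
    obtain ⟨N, ha, hb⟩ := F_common a b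
    change dlF (a * b) = a • dlF b + b • dlF a
    rw [dlF_eq ha, dlF_eq hb, dlF_eq ((F N).mul_mem ha hb), smul_eq_mul, smul_eq_mul,
      Finset.mul_sum, Finset.mul_sum, ← Finset.sum_add_distrib]
    apply Finset.sum_congr rfl
    intro i _
    rw [Derivation.leibniz, smul_eq_mul, smul_eq_mul]
    ring)

theorem dl_eq {N : ℕ} {y : Om} (hy : y ∈ F N) : dl y = ∑ i ∈ Finset.range N, ww i * th i y :=
  dlF_eq hy

theorem dl_const {y : Om} (hy : y ∈ F 0) : dl y = 0 := by
  rw [dl_eq hy]; simp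

theorem dl_F {N : ℕ} {y : Om} (hy : y ∈ F N) : dl y ∈ F N := by
  rw [dl_eq hy]
  apply (F N).sum_mem
  intro i hi
  exact (F N).mul_mem (F_mono (Finset.mem_range.mp hi).le (ww_mem_F i)) (th_F hy)

theorem dl_x (N : ℕ) : dl (xs N) = ww N * xs N := by
  have hm : xs N ∈ F (N + 1) := x_mem_F (Nat.lt_succ_self N)
  rw [dl_eq hm, Finset.sum_eq_single N]
  · rw [xs, th_v, if_pos rfl]
  · intro i _ hi
    rw [xs, th_v, if_neg, mul_zero]
    intro h; injection h with h; exact hi h.symm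
  · intro h; exact absurd (Finset.mem_range.mpr (Nat.lt_succ_self N)) h

/-! ### subalgebras generated by variables -/

/-- subalgebra generated by a set of variables -/
noncomputable def RS (S : Set Var) : Subalgebra (ZMod 3) Om := Algebra.adjoin (ZMod 3) (v '' S)

theorem v_mem_RS {S : Set Var} {s : Var} (h : s ∈ S) : v s ∈ RS S :=
  Algebra.subset_adjoin ⟨s, h, rfl⟩

theorem RS_mono {S T : Set Var} (h : S ⊆ T) : RS S ≤ RS T :=
  Algebra.adjoin_mono (Set.image_mono h)

theorem der_algMap (D : Derivation ℤ Om Om) (c : ZMod 3) : D (algebraMap (ZMod 3) Om c) = 0 := by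
  have : algebraMap (ZMod 3) Om c = ((c.val : ℕ) : Om) := by
    conv_lhs => rw [← ZMod.natCast_zmod_val c]
    rw [map_natCast]
  rw [this]
  exact D.map_natCast _

theorem der_RS (D : Derivation ℤ Om Om) (S : Set Var) (h : ∀ s ∈ S, D (v s) ∈ RS S)
    {y : Om} (hy : y ∈ RS S) : D y ∈ RS S := by
  induction hy using Algebra.adjoin_induction with
  | mem y hy => obtain ⟨s, hs, rfl⟩ := hy; exact h s hs
  | algebraMap c => rw [der_algMap]; exact (RS S).zero_mem
  | add a b ha hb iha ihb => rw [map_add]; exact (RS S).add_mem iha ihb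
  | mul a b ha hb iha ihb =>
    rw [Derivation.leibniz, smul_eq_mul, smul_eq_mul]
    exact (RS S).add_mem ((RS S).mul_mem ha ihb) ((RS S).mul_mem hb iha)

theorem th_RS (i : ℕ) (S : Set Var) {y : Om} (hy : y ∈ RS S) : th i y ∈ RS S := by
  apply der_RS _ _ _ hy
  intro s hs
  rw [th_v]
  split_ifs
  · exact v_mem_RS hs
  · exact (RS S).zero_mem

def lev : Var → ℕ
  | Var.x n => n
  | Var.U n => n
  | Var.u n _ => n

/-- variables of level `< N` -/
noncomputable def AL (N : ℕ) : Subalgebra (ZMod 3) Om := RS {s | lev s < N}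

/-- all variables except `U_N` -/
noncomputable def R1 (N : ℕ) : Subalgebra (ZMod 3) Om := RS {Var.U N}ᶜ

theorem AL_le_R1 {N M : ℕ} (h : N ≤ M) : AL N ≤ R1 M := by
  apply RS_mono
  intro s hs hU
  rw [Set.mem_singleton_iff] at hU
  subst hU
  have : M < N := hs
  omega

theorem algMap_mem_F (c : ZMod 3) (N : ℕ) : algebraMap (ZMod 3) Om c ∈ F N :=
  fun i _ => der_algMap _ c

theorem v_mem_F (s : Var) {N : ℕ} (h : lev s < N) : v s ∈ F N := by
  cases s with
  | x n => exact x_mem_F h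
  | U n => exact U_mem_F n N
  | u n m => exact u_mem_F n m N

theorem AL_le_F {N : ℕ} {y : Om} (hy : y ∈ AL N) : y ∈ F N := by
  induction hy using Algebra.adjoin_induction with
  | mem y hy => obtain ⟨s, hs, rfl⟩ := hy; exact v_mem_F s hs
  | algebraMap c => exact algMap_mem_F c N
  | add a b ha hb iha ihb => exact (F N).add_mem iha ihb
  | mul a b ha hb iha ihb => exact (F N).mul_mem iha ihb

theorem mon_mem_alg (S : Subalgebra (ZMod 3) Om) (z : ℕ → Om) (n : ℕ) (h : ∀ i < n, z i ∈ S)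
    (m : I n) : mon z n m ∈ S := by
  induction n with
  | zero => exact S.one_mem
  | succ n ih =>
    exact S.mul_mem (ih (fun i hi => h i (by omega)) m.1) (S.pow_mem (h n (by omega)) _)

theorem x_mem_AL {i N : ℕ} (h : i < N) : xs i ∈ AL N := v_mem_RS (S := {s | lev s < N}) h

theorem bb_mem_RS (N : ℕ) (S : Set Var) (h1 : ∀ m, Var.u N m ∈ S) (h2 : ∀ i < N, Var.x i ∈ S) :
    bb N ∈ RS S := by
  apply (RS S).sum_mem
  intro m _
  exact (RS S).mul_mem (v_mem_RS (h1 m)) (mon_mem_alg _ _ _ (fun i hi => v_mem_RS (h2 i hi)) m)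

theorem bb_mem_R1 (N : ℕ) : bb N ∈ R1 N := by
  apply bb_mem_RS
  · intro m h; cases h
  · intro i _ h; cases h

theorem ww_mem_AL {i N : ℕ} (h : i < N) : ww i ∈ AL N := by
  apply (AL N).mul_mem
  · exact v_mem_RS (S := {s | lev s < N}) h
  · apply bb_mem_RS
    · intro m; exact h
    · intro j hj; change j < N; omega

theorem dl_AL {N : ℕ} {y : Om} (hy : y ∈ AL N) : dl y ∈ AL N := by
  rw [dl_eq (AL_le_F hy)]
  apply (AL N).sum_mem
  intro i hi
  exact (AL N).mul_mem (ww_mem_AL (Finset.mem_range.mp hi)) (th_RS i _ hy)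

theorem exists_AL (a : A) : ∃ N, algebraMap A Om a ∈ AL N := by
  induction a using MvPolynomial.induction_on with
  | C c => exact ⟨0, (AL 0).algebraMap_mem c⟩
  | add p q hp hq =>
    obtain ⟨N, hN⟩ := hp
    obtain ⟨M, hM⟩ := hq
    refine ⟨max N M, ?_⟩
    rw [map_add]
    exact (AL _).add_mem (RS_mono (fun s (hs : lev s < N) => lt_of_lt_of_le hs (le_max_left _ _)) hN)
      (RS_mono (fun s (hs : lev s < M) => lt_of_lt_of_le hs (le_max_right _ _)) hM)
  | mul_X p s hp =>
    obtain ⟨N, hN⟩ := hp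
    refine ⟨max N (lev s + 1), ?_⟩
    rw [map_mul]
    exact (AL _).mul_mem (RS_mono (fun s (hs : lev s < N) => lt_of_lt_of_le hs (le_max_left _ _)) hN)
      (v_mem_RS (S := {t | lev t < max N (lev s + 1)}) (lt_of_lt_of_le (Nat.lt_succ_self _)
        (le_max_right _ _)))

theorem AL_mono {N M : ℕ} (h : N ≤ M) : AL N ≤ AL M :=
  RS_mono (fun s (hs : lev s < N) => lt_of_lt_of_le hs h)

/-- the variables are algebraically independent -/
theorem v_indep : AlgebraicIndependent (ZMod 3) v := by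
  have h : (aeval v : MvPolynomial Var (ZMod 3) →ₐ[ZMod 3] Om) =
      IsScalarTower.toAlgHom (ZMod 3) A Om := by
    apply MvPolynomial.algHom_ext
    intro s
    rw [aeval_X]; rfl
  change Function.Injective (aeval v : MvPolynomial Var (ZMod 3) →ₐ[ZMod 3] Om)
  rw [h]
  exact algMap_inj

/-- polynomials over `R1 N` are determined by their value at `U_N` -/
theorem eval_zero {N : ℕ} {P : Polynomial Om} (hP : ∀ i, P.coeff i ∈ R1 N)
    (h : P.eval (v (Var.U N)) = 0) : P = 0 := by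
  have ht : Transcendental (R1 N) (v (Var.U N)) :=
    v_indep.transcendental_adjoin (s := {Var.U N}ᶜ) (i := Var.U N) (by simp)
  rw [transcendental_iff] at ht
  have hl : P ∈ Polynomial.lifts (algebraMap (R1 N) Om) := by
    rw [Polynomial.lifts_iff_coeff_lifts]
    intro n
    exact ⟨⟨P.coeff n, hP n⟩, rfl⟩
  obtain ⟨p, hp⟩ := (Polynomial.mem_lifts P).mp hl
  have h2 : Polynomial.aeval (v (Var.U N)) p = 0 := by
    rw [Polynomial.aeval_def, ← Polynomial.eval_map, hp, h]
  have h3 := ht p h2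
  rw [← hp, h3, Polynomial.map_zero]

/-- elements of `A` are polynomials in `U_N` -/
theorem exists_poly (N : ℕ) (a : A) : ∃ P : Polynomial Om, (∀ i, P.coeff i ∈ R1 N) ∧
    P.eval (v (Var.U N)) = algebraMap A Om a := by
  induction a using MvPolynomial.induction_on with
  | C c =>
    refine ⟨Polynomial.C (algebraMap (ZMod 3) Om c), fun i => ?_, ?_⟩
    · rw [Polynomial.coeff_C]
      split_ifs
      · exact (R1 N).algebraMap_mem c
      · exact (R1 N).zero_mem
    · rw [Polynomial.eval_C]; rfl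
  | add p q hp hq =>
    obtain ⟨P, hP, hP2⟩ := hp
    obtain ⟨Q, hQ, hQ2⟩ := hq
    refine ⟨P + Q, fun i => ?_, ?_⟩
    · rw [Polynomial.coeff_add]; exact (R1 N).add_mem (hP i) (hQ i)
    · rw [Polynomial.eval_add, hP2, hQ2, map_add]
  | mul_X p s hp =>
    obtain ⟨P, hP, hP2⟩ := hp
    by_cases hs : s = Var.U N
    · subst hs
      refine ⟨P * Polynomial.X, fun i => ?_, ?_⟩
      · cases i with
        | zero => rw [Polynomial.coeff_mul_X_zero]; exact (R1 N).zero_mem
        | succ i => rw [Polynomial.coeff_mul_X]; exact hP i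
      · rw [Polynomial.eval_mul, Polynomial.eval_X, hP2, map_mul]; rfl
    · refine ⟨P * Polynomial.C (v s), fun i => ?_, ?_⟩
      · rw [Polynomial.coeff_mul_C]
        exact (R1 N).mul_mem (hP i) (v_mem_RS (S := {Var.U N}ᶜ) hs)
      · rw [Polynomial.eval_mul, Polynomial.eval_C, hP2, map_mul]; rfl

/-- coefficientwise derivation -/
noncomputable def mapD (D : Derivation ℤ Om Om) (P : Polynomial Om) : Polynomial Om :=
  ∑ i ∈ Finset.range (P.natDegree + 1), Polynomial.monomial i (D (P.coeff i))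

theorem mapD_coeff (D : Derivation ℤ Om Om) (P : Polynomial Om) (k : ℕ) :
    (mapD D P).coeff k = D (P.coeff k) := by
  rw [mapD, Polynomial.finsetSum_coeff]
  simp only [Polynomial.coeff_monomial]
  rw [Finset.sum_ite_eq' (Finset.range (P.natDegree + 1)) k (fun i => D (P.coeff i))]
  split_ifs with h
  · rfl
  · rw [Finset.mem_range, not_lt] at h
    rw [Polynomial.coeff_eq_zero_of_natDegree_lt (by omega), map_zero]

theorem mapD_natDegree (D : Derivation ℤ Om Om) (P : Polynomial Om) :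
    (mapD D P).natDegree ≤ P.natDegree := by
  rw [Polynomial.natDegree_le_iff_coeff_eq_zero]
  intro k hk
  rw [mapD_coeff, Polynomial.coeff_eq_zero_of_natDegree_lt hk, map_zero]

theorem mapD_eval (D : Derivation ℤ Om Om) (P : Polynomial Om) {u : Om} (hu : D u = 0) :
    (mapD D P).eval u = D (P.eval u) := by
  rw [mapD, Polynomial.eval_finsetSum, Polynomial.eval_eq_sum_range, map_sum]
  apply Finset.sum_congr rfl
  intro i _
  have h1 : D (u ^ i) = 0 := by rw [Derivation.leibniz_pow, hu]; simp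
  rw [Polynomial.eval_monomial, mul_comm (P.coeff i), D_mul_const D h1, mul_comm]

theorem th_U (i N : ℕ) : th i (v (Var.U N)) = 0 := U_mem_F N 0 i (Nat.zero_le i)

theorem coeff_mem_F {N M : ℕ} {P : Polynomial Om} (hP : ∀ i, P.coeff i ∈ R1 N)
    (h : P.eval (v (Var.U N)) ∈ F M) (k : ℕ) : P.coeff k ∈ F M := by
  intro i hi
  have h1 : mapD (th i) P = 0 := by
    apply eval_zero (N := N)
    · intro k; rw [mapD_coeff]; exact th_RS i _ (hP k)
    · rw [mapD_eval _ _ (th_U i N)]; exact h i hi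
  rw [← mapD_coeff, h1, Polynomial.coeff_zero]

/-- the subring `R1 N ∩ F M` -/
noncomputable def Sr (N M : ℕ) : Subring Om := (R1 N).toSubring ⊓ (F M).toSubring

theorem mem_Sr {N M : ℕ} {y : Om} : y ∈ Sr N M ↔ y ∈ R1 N ∧ y ∈ F M := Iff.rfl

/-- `w = a U^d + lower terms` with coefficients in `S` -/
def Ld (N : ℕ) (S : Subring Om) (w : Om) (d : ℕ) (a : Om) : Prop :=
  ∃ P : Polynomial Om, (∀ i, P.coeff i ∈ S) ∧ P.natDegree ≤ d ∧ P.coeff d = a ∧
    P.eval (v (Var.U N)) = w

namespace Ld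

variable {N : ℕ} {S : Subring Om} {w w' a a' : Om} {d d' : ℕ}

theorem mem (h : Ld N S w d a) : a ∈ S := by
  obtain ⟨P, hP, -, rfl, -⟩ := h
  exact hP d

theorem mono {S' : Subring Om} (hS : S ≤ S') (h : Ld N S w d a) : Ld N S' w d a := by
  obtain ⟨P, hP, h1, h2, h3⟩ := h
  exact ⟨P, fun i => hS (hP i), h1, h2, h3⟩

theorem add (h : Ld N S w d a) (h' : Ld N S w' d a') : Ld N S (w + w') d (a + a') := by
  obtain ⟨P, hP, h1, rfl, rfl⟩ := h
  obtain ⟨Q, hQ, h1', rfl, rfl⟩ := h'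
  refine ⟨P + Q, fun i => ?_, ?_, Polynomial.coeff_add _ _ _, Polynomial.eval_add⟩
  · rw [Polynomial.coeff_add]; exact S.add_mem (hP i) (hQ i)
  · exact (Polynomial.natDegree_add_le _ _).trans (max_le h1 h1')

theorem mul (h : Ld N S w d a) (h' : Ld N S w' d' a') : Ld N S (w * w') (d + d') (a * a') := by
  obtain ⟨P, hP, h1, rfl, rfl⟩ := h
  obtain ⟨Q, hQ, h1', rfl, rfl⟩ := h'
  refine ⟨P * Q, fun i => ?_, ?_, ?_, Polynomial.eval_mul⟩
  · rw [Polynomial.coeff_mul]
    exact S.sum_mem (fun p _ => S.mul_mem (hP _) (hQ _))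
  · exact Polynomial.natDegree_mul_le.trans (add_le_add h1 h1')
  · exact Polynomial.coeff_mul_add_eq_of_natDegree_le h1 h1'

theorem const (h : w ∈ S) : Ld N S w 0 w := by
  refine ⟨Polynomial.C w, fun i => ?_, ?_, Polynomial.coeff_C_zero, Polynomial.eval_C⟩
  · rw [Polynomial.coeff_C]
    split_ifs
    · exact h
    · exact S.zero_mem
  · simp

theorem Upow (k : ℕ) : Ld N S (v (Var.U N) ^ k) k 1 := by
  refine ⟨Polynomial.X ^ k, fun i => ?_, ?_, ?_, ?_⟩
  · rw [Polynomial.coeff_X_pow]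
    split_ifs
    · exact S.one_mem
    · exact S.zero_mem
  · simp
  · simp
  · simp

theorem up (h : Ld N S w d a) {k : ℕ} (hk : d < k) : Ld N S w k 0 := by
  obtain ⟨P, hP, h1, -, rfl⟩ := h
  exact ⟨P, hP, by omega, Polynomial.coeff_eq_zero_of_natDegree_lt (by omega), rfl⟩

theorem zero (S : Subring Om) (d : ℕ) : Ld N S 0 d 0 :=
  ⟨0, fun i => by simp, by simp, by simp, by simp⟩

theorem sum {ι : Type*} (s : Finset ι) (f g : ι → Om) (h : ∀ i ∈ s, Ld N S (f i) d (g i)) :
    Ld N S (∑ i ∈ s, f i) d (∑ i ∈ s, g i) := by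
  classical
  induction s using Finset.induction_on with
  | empty => simpa using zero S d
  | insert i s hi ih =>
    rw [Finset.sum_insert hi, Finset.sum_insert hi]
    exact (h i (Finset.mem_insert_self _ _)).add
      (ih (fun j hj => h j (Finset.mem_insert_of_mem hj)))

theorem der (D : Derivation ℤ Om Om) (hD : ∀ y ∈ S, D y ∈ S) (hU : D (v (Var.U N)) = 0)
    (h : Ld N S w d a) : Ld N S (D w) d (D a) := by
  obtain ⟨P, hP, h1, rfl, rfl⟩ := h
  exact ⟨mapD D P, fun i => by rw [mapD_coeff]; exact hD _ (hP i),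
    (mapD_natDegree D P).trans h1, mapD_coeff D P d, mapD_eval D P hU⟩

theorem eq_zero (hS : ∀ y ∈ S, y ∈ R1 N) (h : Ld N S 0 d a) : a = 0 := by
  obtain ⟨P, hP, h1, rfl, h3⟩ := h
  rw [eval_zero (fun i => hS _ (hP i)) h3, Polynomial.coeff_zero]

end Ld

theorem Sr_le_R1 (N M : ℕ) : ∀ y ∈ Sr N M, y ∈ R1 N := fun y hy => hy.1

/-- every nonzero element of `F M` can be scaled by a constant so as to have a leading term -/
theorem exists_Ld {N M : ℕ} {y : Om} (hy : y ∈ F M) (hy0 : y ≠ 0) (a : A)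
    (ha : y = algebraMap A Om a) : ∃ d l, l ≠ 0 ∧ Ld N (Sr N M) y d l := by
  obtain ⟨P, hP, hPe⟩ := exists_poly N a
  rw [← ha] at hPe
  have hF := coeff_mem_F hP (by rw [hPe]; exact hy)
  have hP0 : P ≠ 0 := by
    rintro rfl
    apply hy0; rw [← hPe, Polynomial.eval_zero]
  exact ⟨P.natDegree, P.leadingCoeff, Polynomial.leadingCoeff_ne_zero.mpr hP0, P,
    fun i => ⟨hP i, hF i⟩, le_rfl, rfl, hPe⟩

theorem exists_Ld' (N : ℕ) {M : ℕ} {y : Om} (hy : y ∈ F M) (hy0 : y ≠ 0) :
    ∃ c ∈ F 0, c ≠ 0 ∧ ∃ d l, l ≠ 0 ∧ Ld N (Sr N M) (c * y) d l := by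
  obtain ⟨c, hc, hc0, a, ha⟩ := scale y
  obtain ⟨d, l, hl, h⟩ := exists_Ld (N := N) ((F M).mul_mem (F_mono (Nat.zero_le M) hc) hy)
    (mul_ne_zero hc0 hy0) a ha
  exact ⟨c, hc, hc0, d, l, hl, h⟩

theorem dl_Sr {N M : ℕ} (hMN : M ≤ N) {y : Om} (hy : y ∈ Sr N M) : dl y ∈ Sr N M := by
  refine ⟨?_, dl_F hy.2⟩
  rw [dl_eq hy.2]
  apply (R1 N).sum_mem
  intro i hi
  exact (R1 N).mul_mem (AL_le_R1 hMN (ww_mem_AL (Finset.mem_range.mp hi))) (th_RS i _ hy.1)

theorem dl_U (N : ℕ) : dl (v (Var.U N)) = 0 := dl_const (U_mem_F N 0)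

end Pool.Agent.LieInf
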