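import Mathlib
import Pool.Agent.LieInf.Delta

/-! Genericity of `b_N` and generation of `F_N`. -/

open MvPolynomial

set_option linter.unusedVariables false

namespace Pool.Agent.LieInf

/-! ### the base field of constants -/

/-- the ground field -/
abbrev K0 : Type := ↥(F 0)

theorem K0_smul (c : K0) (y : Om) : c • y = (c : Om) * y := rfl

/-- `F_N` as a subspace -/
def Fs (N : ℕ) : Submodule K0 Om where
  carrier := {y | y ∈ F N}
  add_mem' := fun {a b} ha hb => (F N).add_mem ha hb
  zero_mem' := (F N).zero_mem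
  smul_mem' := fun c y hy => (F N).mul_mem (F_mono (Nat.zero_le N) c.2) hy

theorem mem_Fs {N : ℕ} {y : Om} : y ∈ Fs N ↔ y ∈ F N := Iff.rfl

theorem Fs_span (N : ℕ) : Fs N = Submodule.span K0 (Set.range (mon xs N)) := by
  apply le_antisymm
  · induction N with
    | zero =>
      intro y hy
      have h1 : (1 : Om) ∈ Submodule.span K0 (Set.range (mon xs 0)) :=
        Submodule.subset_span ⟨(() : Unit), rfl⟩
      have h2 := Submodule.smul_mem _ (⟨y, hy⟩ : K0) h1
      rw [K0_smul, mul_one] at h2
      exact h2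
    | succ N ih =>
      intro y hy
      obtain ⟨y0, h0, y1, h1, y2, h2, rfl⟩ := decomp hy
      have key : ∀ (j : Fin 3) (z : Om), z ∈ F N →
          z * xs N ^ (j : ℕ) ∈ Submodule.span K0 (Set.range (mon xs (N + 1))) := by
        intro j z hz
        have hz' := ih hz
        induction hz' using Submodule.span_induction with
        | mem z hzm =>
          obtain ⟨m, rfl⟩ := hzm
          exact Submodule.subset_span ⟨(m, j), rfl⟩
        | zero => rw [zero_mul]; exact Submodule.zero_mem _
        | add a b ha hb iha ihb =>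
          have ha' : a ∈ F N := by
            have := Submodule.span_le.mpr (show Set.range (mon xs N) ⊆ (Fs N : Set Om) by
              rintro _ ⟨m, rfl⟩; exact mon_mem _ _ _ (fun i hi => x_mem_F hi) m) ha
            exact this
          have hb' : b ∈ F N := by
            have := Submodule.span_le.mpr (show Set.range (mon xs N) ⊆ (Fs N : Set Om) by
              rintro _ ⟨m, rfl⟩; exact mon_mem _ _ _ (fun i hi => x_mem_F hi) m) hb
            exact this
          rw [add_mul]; exact Submodule.add_mem _ (iha ha') (ihb hb')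
        | smul c a ha iha =>
          have ha' : a ∈ F N := by
            have := Submodule.span_le.mpr (show Set.range (mon xs N) ⊆ (Fs N : Set Om) by
              rintro _ ⟨m, rfl⟩; exact mon_mem _ _ _ (fun i hi => x_mem_F hi) m) ha
            exact this
          rw [smul_mul_assoc]
          exact Submodule.smul_mem _ _ (iha ha')
      refine Submodule.add_mem _ (Submodule.add_mem _ ?_ ?_) ?_
      · have := key 0 y0 h0
        simpa using this
      · have := key 1 y1 h1
        simpa [xs] using this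
      · have := key 2 y2 h2
        simpa [xs] using this
  · rw [Submodule.span_le]
    rintro _ ⟨m, rfl⟩
    exact mon_mem _ _ _ (fun i hi => x_mem_F hi) m

instance (N : ℕ) : FiniteDimensional K0 (Fs N) := by
  rw [Fs_span]
  exact FiniteDimensional.span_of_finite K0 (Set.finite_range _)

theorem finrank_Fs (N : ℕ) : Module.finrank K0 (Fs N) ≤ 3 ^ N := by
  rw [Fs_span]
  refine (finrank_range_le_card (R := K0) (mon xs N)).trans ?_
  rw [card_I]

/-- independence of the monomials in the `x_i` -/
theorem xs_indep (N : ℕ) (c : I N → Om) (hc : ∀ m, c m ∈ F 0)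
    (hs : ∑ m, c m * mon xs N m = 0) : ∀ m, c m = 0 := by
  apply mon_indep (F 0) xs N _ c hc hs
  intro r hr
  refine ⟨th r, fun c hc => hc r (Nat.zero_le r), fun i hi => x_mem_F hi r le_rfl, ?_⟩
  rw [xs, th_v, if_pos rfl]
  exact v_ne _

/-! ### genericity -/

theorem u_indep (N : ℕ) : AlgebraicIndependent (AL N) (fun m : I N => v (Var.u N m)) := by
  have h := v_indep.adjoin_of_disjoint (s := {s | lev s < N})
    (t := Set.range (fun m : I N => Var.u N m)) (by
      rw [Set.disjoint_left]
      rintro s hs ⟨m, rfl⟩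
      exact lt_irrefl N hs)
  exact h.comp (fun m : I N => ⟨Var.u N m, m, rfl⟩) (by
    intro m m' h
    have := congrArg Subtype.val h
    simpa using this)

theorem bb_ne (N : ℕ) : bb N ≠ 0 := by
  intro h0
  let Q : MvPolynomial (I N) (AL N) :=
    ∑ m : I N, C (⟨mon xs N m, mon_mem_alg _ _ _ (fun i hi => x_mem_AL hi) m⟩ : AL N) * X m
  have h1 : aeval (fun m : I N => v (Var.u N m)) Q = bb N := by
    simp only [Q, map_sum, map_mul, aeval_C, aeval_X, bb]
    apply Finset.sum_congr rfl
    intro m _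
    rw [mul_comm]; rfl
  have h2 : Q = 0 := by
    apply u_indep N
    rw [map_zero]
    exact h1.trans h0
  -- evaluate at 1 at a single index
  have m0 : Nonempty (I N) := by
    rw [← Fintype.card_pos_iff, card_I]; positivity
  obtain ⟨m0⟩ := m0
  have h3 : aeval (fun m : I N => if m = m0 then (1 : Om) else 0) Q = mon xs N m0 := by
    simp only [Q, map_sum, map_mul, aeval_C, aeval_X, mul_ite, mul_one, mul_zero]
    rw [Finset.sum_ite_eq' Finset.univ m0]
    simp
  rw [h2, map_zero] at h3
  have h4 : ∀ n (m : I n), mon xs n m ≠ 0 := by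
    intro n
    induction n with
    | zero => intro m; exact one_ne_zero
    | succ n ih => intro m; exact mul_ne_zero (ih m.1) (pow_ne_zero _ (v_ne _))
  exact h4 N m0 h3.symm

theorem ww_ne (N : ℕ) : ww N ≠ 0 := mul_ne_zero (v_ne _) (bb_ne N)

open Classical in
/-- the special point -/
theorem exists_pt (D : Derivation ℤ Om Om) (N : ℕ) (e : I N → Om)
    (he : ∀ c : I N → Om, (∀ m, D (c m) = 0) → ∑ m, c m * e m = 0 → ∀ m, c m = 0) :
    ∃ t : I N → Om, ∀ n < 3 ^ N, ∑ m, t m * D^[n] (e m) =
      if ∃ c, n + 1 = 2 * 3 ^ c then 1 else 0 := by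
  let ε : Fin (3 ^ N) ≃ I N := (Fintype.equivFinOfCardEq (card_I N)).symm
  let Φ : (I N → Om) →ₗ[Om] (Fin (3 ^ N) → Om) :=
    { toFun := fun t n => ∑ m, t m * D^[(n : ℕ)] (e m)
      map_add' := by
        intro t t'
        funext n
        simp only [Pi.add_apply, add_mul, Finset.sum_add_distrib]
      map_smul' := by
        intro c t
        funext n
        simp only [Pi.smul_apply, smul_eq_mul, RingHom.id_apply, Finset.mul_sum, mul_assoc] }
  have hinj : Function.Injective Φ := by
    rw [← LinearMap.ker_eq_bot, LinearMap.ker_eq_bot']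
    intro t ht
    have h1 := wronskian D (3 ^ N) (fun j => e (ε j)) (by
      intro c hc hs j
      have h2 := he (fun m => c (ε.symm m)) (fun m => hc _) (by
        rw [← hs, ← ε.sum_comp]
        simp) (ε j)
      simpa using h2) (fun j => t (ε j)) (by
      intro i hi
      have h3 : Φ t ⟨i, hi⟩ = 0 := by rw [ht]; rfl
      have h4 : ∑ m, t m * D^[i] (e m) = 0 := h3
      rw [← h4, ← ε.sum_comp])
    funext m
    have := h1 (ε.symm m)
    simpa using this
  have hsurj : Function.Surjective Φ := by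
    rw [← LinearMap.injective_iff_surjective_of_finrank_eq_finrank]
    · exact hinj
    · simp [card_I]
  obtain ⟨t, ht⟩ := hsurj (fun n => if ∃ c, (n : ℕ) + 1 = 2 * 3 ^ c then 1 else 0)
  refine ⟨t, fun n hn => ?_⟩
  have := congrFun ht ⟨n, hn⟩
  exact this

theorem exp_lemma {a s : ℕ} : (∃ c, 3 ^ a + 3 ^ s - 1 + 1 = 2 * 3 ^ c) ↔ a = s := by
  have hpa : 0 < 3 ^ a := by positivity
  have hps : 0 < 3 ^ s := by positivity
  have key : ∀ a s c : ℕ, a < s → 3 ^ a + 3 ^ s ≠ 2 * 3 ^ c := by
    intro a s c h he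
    have h1 : 3 ^ a < 3 ^ s := Nat.pow_lt_pow_right (by norm_num) h
    have hpa : 0 < 3 ^ a := by positivity
    have h2 : 3 ^ c < 3 ^ s := by omega
    have h3 : c < s := (Nat.pow_lt_pow_iff_right (by norm_num)).mp h2
    have h4 : 3 ^ (c + 1) ≤ 3 ^ s := Nat.pow_le_pow_right (by norm_num) h3
    rw [pow_succ] at h4
    omega
  constructor
  · rintro ⟨c, hc⟩
    rw [Nat.sub_add_cancel (by omega)] at hc
    rcases lt_trichotomy a s with h | h | h
    · exact absurd hc (key a s c h)
    · exact h
    · exact absurd (by rw [add_comm]; exact hc) (key s a c h)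
  · rintro rfl
    exact ⟨a, by omega⟩

theorem exp_lt {a s N : ℕ} (ha : a < N) (hs : s < N) : 3 ^ a + 3 ^ s - 1 < 3 ^ N := by
  have h1 : 3 ^ a * 3 ≤ 3 ^ N := by rw [← pow_succ]; exact Nat.pow_le_pow_right (by norm_num) ha
  have h2 : 3 ^ s * 3 ≤ 3 ^ N := by rw [← pow_succ]; exact Nat.pow_le_pow_right (by norm_num) hs
  have hpa : 0 < 3 ^ a := by positivity
  omega

/-! ### the stage data -/

/-- `y_s = D^{3^s-1} g` for `D = f δ`, `g = f b_N` -/
noncomputable def ys (f : Om) (N s : ℕ) : Om := (f • dl)^[3 ^ s - 1] (f * bb N)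

theorem D_apply (f y : Om) : (f • dl) y = f * dl y := rfl

theorem D_const {f y : Om} (hy : y ∈ F 0) : (f • dl) y = 0 := by
  rw [D_apply, dl_const hy, mul_zero]

theorem D_F {f : Om} {N M : ℕ} (hf : f ∈ F N) (h : N ≤ M) {y : Om} (hy : y ∈ F M) :
    (f • dl) y ∈ F M := (F M).mul_mem (F_mono h hf) (dl_F hy)

theorem D_AL {f : Om} {N : ℕ} (hf : f ∈ AL N) {y : Om} (hy : y ∈ AL N) :
    (f • dl) y ∈ AL N := (AL N).mul_mem hf (dl_AL hy)

theorem D_Sr {f : Om} {N : ℕ} (hf : f ∈ AL N) {y : Om} (hy : y ∈ Sr N N) :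
    (f • dl) y ∈ Sr N N :=
  (Sr N N).mul_mem ⟨AL_le_R1 le_rfl hf, AL_le_F hf⟩ (dl_Sr le_rfl hy)

theorem iter_mem {S : Set Om} (D : Derivation ℤ Om Om) (h : ∀ y ∈ S, D y ∈ S) (n : ℕ) {y : Om}
    (hy : y ∈ S) : D^[n] y ∈ S := by
  induction n generalizing y with
  | zero => exact hy
  | succ n ih => rw [Function.iterate_succ_apply]; exact ih (h y hy)

theorem bb_Sr (N : ℕ) : bb N ∈ Sr N N := ⟨bb_mem_R1 N, bb_mem_F N⟩

theorem f_Sr {f : Om} {N : ℕ} (hf : f ∈ AL N) : f ∈ Sr N N := ⟨AL_le_R1 le_rfl hf, AL_le_F hf⟩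

theorem ys_Sr {f : Om} {N : ℕ} (hf : f ∈ AL N) (s : ℕ) : ys f N s ∈ Sr N N :=
  iter_mem (S := (Sr N N : Set Om)) _ (fun y hy => D_Sr hf hy) _
    ((Sr N N).mul_mem (f_Sr hf) (bb_Sr N))

theorem iter_g (f : Om) (N n : ℕ) :
    (f • dl)^[n] (f * bb N) = ∑ m : I N, v (Var.u N m) * (f • dl)^[n] (f * mon xs N m) := by
  have : f * bb N = ∑ m : I N, v (Var.u N m) * (f * mon xs N m) := by
    rw [bb, Finset.mul_sum]
    apply Finset.sum_congr rfl
    intro m _
    ring
  rw [this, iter_sum]
  apply Finset.sum_congr rfl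
  intro m _
  rw [iter_mul_const _ (D_const (u_mem_F _ _ _))]

theorem D_ys (f : Om) (N a s : ℕ) : pw (f • dl) a (ys f N s) =
    ∑ m : I N, v (Var.u N m) * (f • dl)^[3 ^ a + 3 ^ s - 1] (f * mon xs N m) := by
  rw [pw_apply, ys, ← Function.iterate_add_apply, ← iter_g]
  have hps : 0 < 3 ^ s := by positivity
  congr 1
  rw [Nat.add_sub_assoc (by omega)]

/-- the matrix of forms is nonsingular -/
theorem det_ne {f : Om} {N : ℕ} (hf : f ∈ AL N) (hf0 : f ≠ 0)
    (hker : ∀ y, dl y = 0 → y ∈ F 0) :
    (Matrix.of fun a s : Fin N => pw (f • dl) a (ys f N s)).det ≠ 0 := by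
  classical
  set D := f • dl with hD
  have hmem : ∀ (n : ℕ) (m : I N), D^[n] (f * mon xs N m) ∈ AL N := by
    intro n m
    exact iter_mem (S := (AL N : Set Om)) D (fun y hy => D_AL hf hy) n
      ((AL N).mul_mem hf (mon_mem_alg _ _ _ (fun i hi => x_mem_AL hi) m))
  let Q : Matrix (Fin N) (Fin N) (MvPolynomial (I N) (AL N)) := Matrix.of fun a s =>
    ∑ m : I N, C (⟨D^[3 ^ (a : ℕ) + 3 ^ (s : ℕ) - 1] (f * mon xs N m), hmem _ m⟩ : AL N) * X m
  have hQ : ∀ t : I N → Om, aeval t Q.det = (Matrix.of fun a s : Fin N =>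
      ∑ m : I N, t m * D^[3 ^ (a : ℕ) + 3 ^ (s : ℕ) - 1] (f * mon xs N m)).det := by
    intro t
    rw [AlgHom.map_det]
    congr 1
    ext a s
    simp only [Q, AlgHom.mapMatrix_apply, Matrix.map_apply, Matrix.of_apply, map_sum, map_mul,
      aeval_C, aeval_X]
    apply Finset.sum_congr rfl
    intro m _
    rw [mul_comm]; rfl
  obtain ⟨t, ht⟩ := exists_pt D N (fun m => f * mon xs N m) (by
    intro c hc hs
    have hc' : ∀ m, c m ∈ F 0 := by
      intro m
      apply hker
      have := hc m
      rw [hD, D_apply] at this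
      exact (mul_eq_zero.mp this).resolve_left hf0
    apply xs_indep N c hc'
    have : f * ∑ m, c m * mon xs N m = 0 := by
      rw [← hs, Finset.mul_sum]
      apply Finset.sum_congr rfl
      intro m _
      ring
    exact (mul_eq_zero.mp this).resolve_left hf0)
  have h1 : aeval t Q.det = 1 := by
    rw [hQ]
    have : (Matrix.of fun a s : Fin N =>
      ∑ m : I N, t m * D^[3 ^ (a : ℕ) + 3 ^ (s : ℕ) - 1] (f * mon xs N m)) = 1 := by
      ext a s
      rw [Matrix.of_apply, ht _ (exp_lt a.2 s.2), Matrix.one_apply]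
      simp only [exp_lemma, Fin.ext_iff]
    rw [this, Matrix.det_one]
  have h2 : Q.det ≠ 0 := by
    intro h; rw [h, map_zero] at h1; exact zero_ne_one h1
  have h3 : aeval (fun m : I N => v (Var.u N m)) Q.det ≠ 0 := by
    intro h
    apply h2
    apply u_indep N
    rw [map_zero]
    exact h
  rw [hQ] at h3
  have e : (Matrix.of fun a s : Fin N => pw D a (ys f N s)) = (Matrix.of fun a s : Fin N =>
      ∑ m : I N, v (Var.u N m) * D^[3 ^ (a : ℕ) + 3 ^ (s : ℕ) - 1] (f * mon xs N m)) := by
    ext a s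
    rw [Matrix.of_apply, Matrix.of_apply, D_ys]
  rw [e]
  exact h3

/-- a nonzero subspace of `F_N` stable under multiplication by the `y_s` is `F_N` -/
theorem star {f : Om} {N : ℕ} (hf : f ∈ AL N) (hf0 : f ≠ 0)
    (hker : ∀ y, dl y = 0 → y ∈ F 0) (B : Submodule K0 Om) (hB : B ≤ Fs N) (hB0 : B ≠ ⊥)
    (hy : ∀ s < N, ∀ b ∈ B, ys f N s * b ∈ B) : B = Fs N := by
  classical
  have hdet := det_ne hf hf0 hker
  set M := (Matrix.of fun a s : Fin N => pw (f • dl) a (ys f N s)) with hM
  have hinv : M⁻¹ * M = 1 := Matrix.nonsing_inv_mul M (isUnit_iff_ne_zero.mpr hdet)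
  -- derivations dual to the y_s
  have hdual : ∀ r < N, ∃ Δ : Derivation ℤ Om Om, (∀ c ∈ F 0, Δ c = 0) ∧
      (∀ i < r, Δ (ys f N i) = 0) ∧ Δ (ys f N r) ≠ 0 := by
    intro r hr
    let Δ : Derivation ℤ Om Om := ∑ a : Fin N, M⁻¹ ⟨r, hr⟩ a • pw (f • dl) a
    have hΔ : ∀ y, Δ y = ∑ a : Fin N, M⁻¹ ⟨r, hr⟩ a * pw (f • dl) a y := by
      intro y
      simp only [Δ]
      induction (Finset.univ : Finset (Fin N)) using Finset.induction_on with
      | empty => simp
      | insert a s ha ih =>
        rw [Finset.sum_insert ha, Finset.sum_insert ha, Derivation.add_apply, ih]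
        rfl
    have hval : ∀ s : Fin N, Δ (ys f N s) = if (⟨r, hr⟩ : Fin N) = s then 1 else 0 := by
      intro s
      rw [hΔ]
      have h1 : (M⁻¹ * M) ⟨r, hr⟩ s = if (⟨r, hr⟩ : Fin N) = s then 1 else 0 := by
        rw [hinv, Matrix.one_apply]
      rw [← h1, Matrix.mul_apply]
      rfl
    refine ⟨Δ, fun c hc => ?_, fun i hi => ?_, ?_⟩
    · rw [hΔ]
      apply Finset.sum_eq_zero
      intro a _
      have h0 : pw (f • dl) a c = 0 := by
        rw [pw_apply]
        have h1 : 0 < 3 ^ (a : ℕ) := by positivity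
        obtain ⟨n, hn⟩ := Nat.exists_eq_succ_of_ne_zero h1.ne'
        rw [hn, Function.iterate_succ_apply, D_const hc, iter_zero]
      rw [h0, mul_zero]
    · have := hval ⟨i, by omega⟩
      rw [if_neg (by intro h; have := congrArg Fin.val h; simp at this; omega)] at this
      exact this
    · have := hval ⟨r, hr⟩
      rw [if_pos rfl] at this
      rw [this]; exact one_ne_zero
  have hind := mon_indep (F 0) (ys f N) N hdual
  -- nonzero element of B
  obtain ⟨b, hb, hb0⟩ := Submodule.exists_mem_ne_zero_of_ne_bot hB0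
  have hmon : ∀ n ≤ N, ∀ m : I n, mon (ys f N) n m * b ∈ B := by
    intro n
    induction n with
    | zero => intro _ m; simpa [mon] using hb
    | succ n ih =>
      intro hn m
      have h1 : ∀ k : ℕ, ys f N n ^ k * (mon (ys f N) n m.1 * b) ∈ B := by
        intro k
        induction k with
        | zero => simpa using ih (by omega) m.1
        | succ k ihk =>
          have := hy n (by omega) _ ihk
          rw [pow_succ]
          convert this using 1
          ring
      have := h1 m.2
      rw [mon]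
      convert this using 1
      ring
  let w : I N → B := fun m => ⟨mon (ys f N) N m * b, hmon N le_rfl m⟩
  have hw : LinearIndependent K0 w := by
    rw [Fintype.linearIndependent_iff]
    intro g hg m
    have h1 : ∑ m, (g m : Om) * (mon (ys f N) N m * b) = 0 := by
      have := congrArg (fun z : B => (z : Om)) hg
      simpa [w, K0_smul] using this
    have h2 : ∑ m, (g m : Om) * mon (ys f N) N m = 0 := by
      have h3 : (∑ m, (g m : Om) * mon (ys f N) N m) * b = 0 := by
        rw [← h1, Finset.sum_mul]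
        apply Finset.sum_congr rfl
        intro m _
        ring
      exact (mul_eq_zero.mp h3).resolve_right hb0
    have := hind (fun m => (g m : Om)) (fun m => (g m).2) h2 m
    exact Subtype.ext this
  haveI : FiniteDimensional K0 B := Submodule.finiteDimensional_of_le hB
  have h1 := hw.fintype_card_le_finrank
  rw [card_I] at h1
  exact Submodule.eq_of_le_of_finrank_le hB ((finrank_Fs N).trans h1)

end Pool.Agent.LieInf
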