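import Mathlib
import Pool.Agent.LieInf.Star

/-! The constants of `δ`, and irreducibility through leading coefficients. -/

open MvPolynomial

set_option linter.unusedVariables false

namespace Pool.Agent.LieInf

theorem natCast_Sr (N M n : ℕ) : (n : Om) ∈ Sr N M := natCast_mem _ n

/-- no solution of `δ y + j w y = 0` -/
theorem no_sol {N : ℕ} (j : ℕ) (hj : (j : Om) ≠ 0) {y : Om} (hy : y ∈ F N)
    (h : dl y + j * ww N * y = 0) : y = 0 := by
  by_contra hy0
  obtain ⟨c, hc, hc0, d, l, hl, hL⟩ := exists_Ld' N hy hy0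
  have h1 : Ld N (Sr N N) (dl (c * y)) (d + 1) 0 :=
    (hL.der dl (fun y hy => dl_Sr le_rfl hy) (dl_U N)).up (Nat.lt_succ_self d)
  have h2 : Ld N (Sr N N) (v (Var.U N) ^ 1 * (((j : Om) * bb N) * (c * y))) (1 + (0 + d))
      (1 * (((j : Om) * bb N) * l)) :=
    (Ld.Upow 1).mul ((Ld.const ((Sr N N).mul_mem (natCast_Sr N N j) (bb_Sr N))).mul hL)
  rw [show 1 + (0 + d) = d + 1 by ring] at h2
  have h3 := h1.add h2
  have h4 : dl (c * y) + v (Var.U N) ^ 1 * (((j : Om) * bb N) * (c * y)) = 0 := by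
    rw [D_mul_const dl (dl_const hc)]
    have : c * (dl y + j * ww N * y) = 0 := by rw [h, mul_zero]
    rw [ww] at this
    linear_combination this
  rw [h4, zero_add, one_mul] at h3
  have h5 := h3.eq_zero (Sr_le_R1 N N)
  exact mul_ne_zero (mul_ne_zero hj (bb_ne N)) hl h5

theorem two_ne : ((2 : ℕ) : Om) ≠ 0 := by
  intro h2
  have h3 := three_zero Om
  have : (1 : Om) = 0 := by
    push_cast at h2
    linear_combination h3 - h2
  exact one_ne_zero this

theorem dl_decomp {N : ℕ} (y0 y1 y2 : Om) :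
    dl (y0 + y1 * xs N + y2 * xs N ^ 2) =
      dl y0 + (dl y1 + ww N * y1) * xs N + (dl y2 + 2 * ww N * y2) * xs N ^ 2 := by
  rw [map_add, map_add, Derivation.leibniz, Derivation.leibniz, Derivation.leibniz_pow, dl_x]
  simp only [smul_eq_mul, nsmul_eq_mul, Nat.cast_ofNat, Nat.add_one_sub_one, pow_one]
  ring

/-- the constants of `δ` -/
theorem ker_dl (y : Om) (h : dl y = 0) : y ∈ F 0 := by
  obtain ⟨M, hM⟩ := F_total y
  induction M with
  | zero => exact hM
  | succ M ih =>
    obtain ⟨y0, h0, y1, h1, y2, h2, he⟩ := decomp hM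
    change y = y0 + y1 * xs M + y2 * xs M ^ 2 at he
    rw [he, dl_decomp] at h
    have h3 := decomp_unique (N := M) (dl_F h0)
      ((F M).add_mem (dl_F h1) ((F M).mul_mem (ww_mem_F M) h1))
      ((F M).add_mem (dl_F h2) ((F M).mul_mem ((F M).mul_mem (by
        have := natCast_mem (F M) 2; exact_mod_cast this) (ww_mem_F M)) h2)) h
    have e1 : y1 = 0 := no_sol (N := M) 1 (by simp) h1 (by
      rw [Nat.cast_one, one_mul]; exact h3.2.1)
    have e2 : y2 = 0 := no_sol (N := M) 2 two_ne h2 (by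
      rw [Nat.cast_ofNat]; exact h3.2.2)
    apply ih
    rw [he, e1, e2]
    simpa using h0

/-! ### scaling finite families -/

theorem scale' (y : Om) : ∃ b : A, algebraMap A Om b ∈ F 0 ∧ algebraMap A Om b ≠ 0 ∧
    ∃ a : A, algebraMap A Om b * y = algebraMap A Om a := by
  obtain ⟨a, b, hb, hy⟩ := exists_quot y
  have hb' : algebraMap A Om b ≠ 0 := by
    intro h0; apply hb; apply algMap_inj; rw [h0, map_zero]
  refine ⟨b ^ 3, ?_, ?_, b ^ 2 * a, ?_⟩
  · rw [map_pow]; exact cube_mem _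
  · rw [map_pow]; exact pow_ne_zero _ hb'
  · rw [map_mul, map_pow, map_pow, ← hy]
    ring

theorem scale_fam {ι : Type*} (s : Finset ι) (y : ι → Om) :
    ∃ b : A, algebraMap A Om b ∈ F 0 ∧ algebraMap A Om b ≠ 0 ∧
      ∀ i ∈ s, ∃ a : A, algebraMap A Om b * y i = algebraMap A Om a := by
  classical
  induction s using Finset.induction_on with
  | empty => exact ⟨1, by rw [map_one]; exact (F 0).one_mem, by simp, by simp⟩
  | insert i s hi ih =>
    obtain ⟨b, hb, hb0, h⟩ := ih
    obtain ⟨b', hb', hb0', a', h'⟩ := scale' (y i)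
    refine ⟨b * b', ?_, ?_, ?_⟩
    · rw [map_mul]; exact (F 0).mul_mem hb hb'
    · rw [map_mul]; exact mul_ne_zero hb0 hb0'
    · intro j hj
      rw [Finset.mem_insert] at hj
      rcases hj with rfl | hj
      · refine ⟨b * a', ?_⟩
        rw [map_mul, map_mul, ← h']; ring
      · obtain ⟨a, ha⟩ := h j hj
        refine ⟨b' * a, ?_⟩
        rw [map_mul, map_mul, ← ha]; ring

/-- common leading terms for a finite nonzero family of constants -/
theorem fam_poly (N : ℕ) {ι : Type*} [Fintype ι] (y : ι → Om) (hy : ∀ i, y i ∈ F 0)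
    (hne : ∃ i, y i ≠ 0) : ∃ c ∈ F 0, c ≠ 0 ∧ ∃ P : ι → Polynomial Om,
      (∀ i k, (P i).coeff k ∈ Sr N 0) ∧ (∀ i, (P i).eval (v (Var.U N)) = c * y i) ∧
      ∃ t, (∀ i, (P i).natDegree ≤ t) ∧ ∃ i, (P i).coeff t ≠ 0 := by
  classical
  obtain ⟨b, hb, hb0, hA⟩ := scale_fam Finset.univ y
  choose a ha using fun i => hA i (Finset.mem_univ i)
  choose P hP hPe using fun i => exists_poly N (a i)
  have hF : ∀ i k, (P i).coeff k ∈ F 0 := by
    intro i
    apply coeff_mem_F (hP i)
    rw [hPe i, ← ha i]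
    exact (F 0).mul_mem hb (hy i)
  refine ⟨algebraMap A Om b, hb, hb0, P, fun i k => ⟨hP i k, hF i k⟩,
    fun i => by rw [hPe i, ha i], ?_⟩
  let T := Finset.univ.filter (fun i => P i ≠ 0)
  have hT : T.Nonempty := by
    obtain ⟨i, hi⟩ := hne
    refine ⟨i, ?_⟩
    simp only [T, Finset.mem_filter, Finset.mem_univ, true_and]
    intro h0
    have := hPe i
    rw [h0, Polynomial.eval_zero, ← ha i] at this
    exact mul_ne_zero hb0 hi this.symm
  obtain ⟨i₀, hi₀, hmax⟩ := T.exists_max_image (fun i => (P i).natDegree) hT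
  have hne0 : P i₀ ≠ 0 := by simpa [T] using hi₀
  refine ⟨(P i₀).natDegree, fun i => ?_, i₀, Polynomial.leadingCoeff_ne_zero.mpr hne0⟩
  by_cases h : P i = 0
  · rw [h]; simp
  · exact hmax i (by simpa [T] using h)

theorem pw_const {f : Om} (s : ℕ) {c : Om} (hc : c ∈ F 0) : pw (f • dl) s c = 0 := by
  rw [pw_apply]
  have h1 : 0 < 3 ^ s := by positivity
  obtain ⟨n, hn⟩ := Nat.exists_eq_succ_of_ne_zero h1.ne'
  rw [hn, Function.iterate_succ_apply, D_const hc, iter_zero]

theorem pw_Sr {f : Om} {N : ℕ} (hf : f ∈ AL N) (s : ℕ) {y : Om} (hy : y ∈ Sr N N) :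
    pw (f • dl) s y ∈ Sr N N := by
  rw [pw_apply]
  exact iter_mem (S := (Sr N N : Set Om)) _ (fun y hy => D_Sr hf hy) _ hy

theorem pw_F {f : Om} {N M : ℕ} (hf : f ∈ F N) (h : N ≤ M) (s : ℕ) {y : Om} (hy : y ∈ F M) :
    pw (f • dl) s y ∈ F M := by
  rw [pw_apply]
  exact iter_mem (S := {y | y ∈ F M}) _ (fun y hy => D_F hf h hy) _ hy

/-- irreducibility -/
theorem simple {f : Om} {N : ℕ} (hf : f ∈ AL N) (hf0 : f ≠ 0) (j : ℕ) (hj : (j : Om) ≠ 0)
    (W : Submodule K0 Om) (hW : W ≤ Fs N) (hW0 : W ≠ ⊥)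
    (hst : ∀ s < N, ∀ w ∈ W,
      pw (f • dl) s w + j * (v (Var.U N) * ys f N s) * w ∈ W) : W = Fs N := by
  classical
  set U := v (Var.U N) with hU
  let LC : Set Om := {a | ∃ d, ∃ w ∈ W, Ld N (Sr N N) w d a}
  have hLCF : LC ⊆ (Fs N : Set Om) := by
    rintro a ⟨d, w, hw, h⟩
    exact (h.mem).2
  let B := Submodule.span K0 LC
  have hBle : B ≤ Fs N := Submodule.span_le.mpr hLCF
  have hjinv : ((j : Om)⁻¹) ∈ F 0 := (F 0).inv_mem (natCast_mem _ j)
  have hB0 : B ≠ ⊥ := by
    obtain ⟨w, hw, hw0⟩ := Submodule.exists_mem_ne_zero_of_ne_bot hW0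
    obtain ⟨c, hc, hc0, d, l, hl, hL⟩ := exists_Ld' N (hW hw) hw0
    intro hbot
    have : l ∈ B := Submodule.subset_span ⟨d, c * w, W.smul_mem (⟨c, hc⟩ : K0) hw, hL⟩
    rw [hbot, Submodule.mem_bot] at this
    exact hl this
  have hBy : ∀ s < N, ∀ b ∈ B, ys f N s * b ∈ B := by
    intro s hs b hb
    induction hb using Submodule.span_induction with
    | mem a ha =>
      obtain ⟨d, w, hw, hL⟩ := ha
      have h1 : Ld N (Sr N N) (pw (f • dl) s w) (d + 1) 0 := by
        apply Ld.up _ (Nat.lt_succ_self d)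
        · exact pw (f • dl) s a
        · exact hL.der _ (fun y hy => pw_Sr hf s hy) (pw_const s (U_mem_F N 0))
      have h2 : Ld N (Sr N N) (U ^ 1 * (((j : Om) * ys f N s) * w)) (1 + (0 + d))
          (1 * (((j : Om) * ys f N s) * a)) :=
        (Ld.Upow 1).mul ((Ld.const ((Sr N N).mul_mem (natCast_Sr N N j) (ys_Sr hf s))).mul hL)
      rw [show 1 + (0 + d) = d + 1 by ring] at h2
      have h3 := h1.add h2
      have h4 : (j : Om) * (ys f N s * a) ∈ B := by
        apply Submodule.subset_span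
        refine ⟨d + 1, _, hst s hs w hw, ?_⟩
        convert h3 using 1
        · ring
        · ring
      have h5 := B.smul_mem (⟨(j : Om)⁻¹, hjinv⟩ : K0) h4
      rw [K0_smul] at h5
      change (j : Om)⁻¹ * ((j : Om) * (ys f N s * a)) ∈ B at h5
      rw [inv_mul_cancel_left₀ hj] at h5
      exact h5
    | zero => rw [mul_zero]; exact B.zero_mem
    | add a b ha hb iha ihb => rw [mul_add]; exact B.add_mem iha ihb
    | smul c a ha iha => rw [mul_smul_comm]; exact B.smul_mem _ iha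
  have hBtop := star hf hf0 ker_dl B hBle hB0 hBy
  -- pick a basis among leading coefficients
  haveI : FiniteDimensional K0 B := Submodule.finiteDimensional_of_le hBle
  obtain ⟨a, haLC, -, hali⟩ := Submodule.exists_fun_fin_finrank_span_eq K0 LC
  choose d w hw hL using haLC
  let D := ∑ i, d i
  have hdD : ∀ i, d i ≤ D := fun i =>
    Finset.single_le_sum (f := d) (fun _ _ => Nat.zero_le _) (Finset.mem_univ i)
  let w' := fun i => U ^ (D - d i) * w i
  have hw' : ∀ i, w' i ∈ W := by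
    intro i
    exact W.smul_mem (⟨U ^ (D - d i), (F 0).pow_mem (U_mem_F N 0) _⟩ : K0) (hw i)
  have hL' : ∀ i, Ld N (Sr N N) (w' i) D (a i) := by
    intro i
    have := (Ld.Upow (S := Sr N N) (N := N) (D - d i)).mul (hL i)
    rw [Nat.sub_add_cancel (hdD i), one_mul] at this
    exact this
  have hli : LinearIndependent K0 (fun i => (⟨w' i, hw' i⟩ : W)) := by
    rw [Fintype.linearIndependent_iff]
    intro g hg
    have hg0 : ∑ i, (g i : Om) * w' i = 0 := by
      have := congrArg (fun z : W => (z : Om)) hg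
      simpa [K0_smul] using this
    by_contra hcon
    push Not at hcon
    obtain ⟨i₁, hi₁⟩ := hcon
    obtain ⟨c, hc, hc0, P, hP, hPe, t, ht, i₂, hi₂⟩ := fam_poly N (fun i => (g i : Om))
      (fun i => (g i).2) ⟨i₁, fun h => hi₁ (Subtype.ext h)⟩
    have hS : Sr N 0 ≤ Sr N N := fun y hy => ⟨hy.1, F_mono (Nat.zero_le N) hy.2⟩
    have h1 : ∀ i, Ld N (Sr N N) (c * (g i : Om) * w' i) (t + D) ((P i).coeff t * a i) := by
      intro i
      have h2 : Ld N (Sr N N) (c * (g i : Om)) t ((P i).coeff t) :=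
        ⟨P i, fun k => hS (hP i k), ht i, rfl, hPe i⟩
      exact h2.mul (hL' i)
    have h2 := Ld.sum (N := N) (S := Sr N N) (d := t + D) Finset.univ
      (fun i => c * (g i : Om) * w' i) (fun i => (P i).coeff t * a i) (fun i _ => h1 i)
    have h3 : ∑ i, c * (g i : Om) * w' i = 0 := by
      have : ∑ i, c * (g i : Om) * w' i = c * ∑ i, (g i : Om) * w' i := by
        rw [Finset.mul_sum]
        apply Finset.sum_congr rfl
        intro i _
        ring
      rw [this, hg0, mul_zero]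
    rw [h3] at h2
    have h4 := h2.eq_zero (Sr_le_R1 N N)
    rw [Fintype.linearIndependent_iff] at hali
    have h5 := hali (fun i => (⟨(P i).coeff t, (hP i t).2⟩ : K0)) h4 i₂
    exact hi₂ (congrArg Subtype.val h5)
  haveI : FiniteDimensional K0 W := Submodule.finiteDimensional_of_le hW
  have hcard := hli.fintype_card_le_finrank
  rw [Fintype.card_fin] at hcard
  apply Submodule.eq_of_le_of_finrank_le hW
  rw [← hBtop]
  exact hcard

end Pool.Agent.LieInf
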