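import Mathlib
import Pool.Agent.LieInf.Simple

/-! A polynomial in `D` acting on `F_{N+1}` as a multiple of `x d/dx`. -/

open MvPolynomial

set_option linter.unusedVariables false

namespace Pool.Agent.LieInf

/-- restriction of `pw D s` to `F_N` as a linear map -/
noncomputable def Lm {f : Om} {N : ℕ} (hf : f ∈ F N) (s : ℕ) : Fs N →ₗ[K0] Fs N where
  toFun y := ⟨pw (f • dl) s y, pw_F hf le_rfl s y.2⟩
  map_add' a b := Subtype.ext (map_add _ _ _)
  map_smul' c a := Subtype.ext (by
    change pw (f • dl) s ((c : Om) * (a : Om)) = (c : Om) * pw (f • dl) s (a : Om)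
    exact D_mul_const _ (pw_const s c.2) _)

theorem Lm_coe {f : Om} {N : ℕ} (hf : f ∈ F N) (s : ℕ) (y : Fs N) :
    ((Lm hf s y : Fs N) : Om) = pw (f • dl) s (y : Om) := rfl

/-- general dependence lemma -/
theorem dep_general {K V : Type} [Field K] [AddCommGroup V] [Module K V] [FiniteDimensional K V]
    (L : ℕ → V →ₗ[K] V) : ∃ (T : Finset ℕ) (g : ℕ → K), (∀ y, ∑ s ∈ T, g s • L s y = 0) ∧
      ∃ i ∈ T, g i ≠ 0 := by
  have hnl : ¬ LinearIndependent K L := Module.Finite.not_linearIndependent_of_infinite _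
  have hnl2 := mt linearIndependent_iff'.mpr hnl
  push Not at hnl2
  obtain ⟨T, g, hg, i, hi, hgi⟩ := hnl2
  refine ⟨T, g, fun y => ?_, i, hi, hgi⟩
  have := congrArg (fun M : V →ₗ[K] V => M y) hg
  simpa [LinearMap.sum_apply] using this

theorem exists_dep {f : Om} {N : ℕ} (hf : f ∈ F N) : ∃ (T : Finset ℕ) (g : ℕ → Om),
    (∀ s, g s ∈ F 0) ∧ (∀ y ∈ F N, ∑ s ∈ T, g s * pw (f • dl) s y = 0) ∧ ∃ i ∈ T, g i ≠ 0 := by
  obtain ⟨T, g, h, i, hi, hgi⟩ := dep_general (K := K0) (V := Fs N) (Lm hf)
  refine ⟨T, fun s => g s, fun s => (g s).2, fun y hy => ?_, i, hi, fun h0 => hgi (Subtype.ext h0)⟩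
  have h1 := congrArg (Subtype.val) (h ⟨y, hy⟩)
  rw [AddSubmonoidClass.coe_finsetSum] at h1
  exact h1

/-- there is a relation with coefficients not involving `U_N` -/
theorem exists_rel {f : Om} {N : ℕ} (hf : f ∈ AL N) : ∃ (S : ℕ) (a : ℕ → Om),
    (∀ s, a s ∈ Sr N 0) ∧ a S ≠ 0 ∧
      ∀ y ∈ F N, ∑ s ∈ Finset.range (S + 1), a s * pw (f • dl) s y = 0 := by
  classical
  have hfF := AL_le_F hf
  obtain ⟨T, g, hgF, hrel, i₀, hi₀, hgi⟩ := exists_dep hfF
  obtain ⟨c, hc, hc0, P, hP, hPe, t, ht, i₁, hi₁⟩ := fam_poly N (fun i : T => g i)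
    (fun i => hgF i) ⟨⟨i₀, hi₀⟩, hgi⟩
  let a0 : ℕ → Om := fun s => if h : s ∈ T then (P ⟨s, h⟩).coeff t else 0
  have ha0 : ∀ s, a0 s ∈ Sr N 0 := by
    intro s
    simp only [a0]
    split_ifs with h
    · exact hP _ _
    · exact (Sr N 0).zero_mem
  -- relation on Sr N N
  have h1 : ∀ y ∈ Sr N N, ∑ s ∈ T, a0 s * pw (f • dl) s y = 0 := by
    intro y hy
    let Q : Polynomial Om := ∑ i : T, P i * Polynomial.C (pw (f • dl) i y)
    have hQ : Q = 0 := by
      apply eval_zero (N := N)
      · intro k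
        simp only [Q]
        rw [Polynomial.finsetSum_coeff]
        apply (R1 N).sum_mem
        intro i _
        rw [Polynomial.coeff_mul_C]
        exact (R1 N).mul_mem (hP i k).1 (pw_Sr hf _ hy).1
      · simp only [Q]
        rw [Polynomial.eval_finsetSum]
        have : ∑ i : T, (P i * Polynomial.C (pw (f • dl) i y)).eval (v (Var.U N)) =
            c * ∑ s ∈ T, g s * pw (f • dl) s y := by
          rw [Finset.mul_sum, ← Finset.sum_coe_sort T
            (fun s => c * (g s * pw (f • dl) s y))]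
          apply Finset.sum_congr rfl
          intro i _
          rw [Polynomial.eval_mul, Polynomial.eval_C, hPe i]
          ring
        rw [this, hrel y hy.2, mul_zero]
    have h2 : Q.coeff t = 0 := by rw [hQ, Polynomial.coeff_zero]
    simp only [Q] at h2
    rw [Polynomial.finsetSum_coeff] at h2
    rw [← h2, ← Finset.sum_coe_sort T (fun s => a0 s * pw (f • dl) s y)]
    apply Finset.sum_congr rfl
    intro i _
    rw [Polynomial.coeff_mul_C]
    simp only [a0, dif_pos i.2]
  -- relation on F N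
  have h2 : ∀ y ∈ F N, ∑ s ∈ T, a0 s * pw (f • dl) s y = 0 := by
    intro y hy
    by_cases hy0 : y = 0
    · subst hy0; simp
    obtain ⟨c', hc', hc0', d, l, hl, Q, hQ, -, -, hQe⟩ := exists_Ld' N hy hy0
    have h3 : ∑ s ∈ T, a0 s * pw (f • dl) s (c' * y) = 0 := by
      rw [← hQe, Polynomial.eval_eq_sum_range]
      have : ∀ s, pw (f • dl) s (∑ i ∈ Finset.range (Q.natDegree + 1),
          Q.coeff i * v (Var.U N) ^ i) = ∑ i ∈ Finset.range (Q.natDegree + 1),
            v (Var.U N) ^ i * pw (f • dl) s (Q.coeff i) := by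
        intro s
        rw [map_sum]
        apply Finset.sum_congr rfl
        intro i _
        rw [mul_comm, D_mul_const _ (pw_const s ((F 0).pow_mem (U_mem_F N 0) i))]
      simp only [this, Finset.mul_sum]
      rw [Finset.sum_comm]
      apply Finset.sum_eq_zero
      intro i _
      have h4 := h1 (Q.coeff i) (hQ i)
      have : ∑ s ∈ T, a0 s * (v (Var.U N) ^ i * pw (f • dl) s (Q.coeff i)) =
          v (Var.U N) ^ i * ∑ s ∈ T, a0 s * pw (f • dl) s (Q.coeff i) := by
        rw [Finset.mul_sum]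
        apply Finset.sum_congr rfl
        intro s _
        ring
      rw [this, h4, mul_zero]
    have h5 : ∑ s ∈ T, a0 s * pw (f • dl) s (c' * y) =
        c' * ∑ s ∈ T, a0 s * pw (f • dl) s y := by
      rw [Finset.mul_sum]
      apply Finset.sum_congr rfl
      intro s _
      rw [D_mul_const _ (pw_const s hc')]
      ring
    rw [h5] at h3
    exact (mul_eq_zero.mp h3).resolve_left hc0'
  -- top index
  let T' := T.filter (fun s => a0 s ≠ 0)
  have hT' : T'.Nonempty := by
    refine ⟨i₁, ?_⟩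
    simp only [T', Finset.mem_filter]
    refine ⟨i₁.2, ?_⟩
    simp only [a0, dif_pos i₁.2]
    exact hi₁
  refine ⟨T'.max' hT', a0, ha0, ?_, ?_⟩
  · have := T'.max'_mem hT'
    simp only [T', Finset.mem_filter] at this
    exact this.2
  · intro y hy
    rw [← h2 y hy]
    symm
    have hz : ∀ s, s ∉ T' → a0 s * pw (f • dl) s y = 0 := by
      intro s hs
      have : a0 s = 0 := by
        by_contra hne
        apply hs
        simp only [T', Finset.mem_filter]
        refine ⟨?_, hne⟩
        by_contra hsT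
        apply hne
        simp only [a0, dif_neg hsT]
      rw [this, zero_mul]
    have e1 : ∑ s ∈ T, a0 s * pw (f • dl) s y = ∑ s ∈ T', a0 s * pw (f • dl) s y := by
      symm
      apply Finset.sum_subset (Finset.filter_subset _ _)
      intro s _ hs
      exact hz s hs
    have e2 : ∑ s ∈ Finset.range (T'.max' hT' + 1), a0 s * pw (f • dl) s y =
        ∑ s ∈ T', a0 s * pw (f • dl) s y := by
      symm
      apply Finset.sum_subset
      · intro s hs
        rw [Finset.mem_range]
        have := T'.le_max' s hs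
        omega
      · intro s _ hs
        exact hz s hs
    rw [e1, e2]

/-! ### the eigenvalues `η_s` -/

/-- `D^{3^s} x = η_s x` -/
noncomputable def eta (f : Om) (N : ℕ) : ℕ → Om
  | 0 => f * ww N
  | s + 1 => pw (f • dl) s (pw (f • dl) s (eta f N s)) + eta f N s ^ 3

theorem pw_x (f : Om) (N s : ℕ) : pw (f • dl) s (xs N) = eta f N s * xs N := by
  induction s with
  | zero =>
    change (f • dl) (xs N) = _
    rw [D_apply, dl_x, eta]
    ring
  | succ s ih =>
    rw [pw_succ, ih, eta]
    set Δ := pw (f • dl) s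
    set e := eta f N s
    have h3 := three_zero Om
    rw [Derivation.leibniz, smul_eq_mul, smul_eq_mul, ih, map_add, Derivation.leibniz,
      Derivation.leibniz, Derivation.leibniz, ih]
    simp only [smul_eq_mul]
    linear_combination (e * Δ e * xs N) * h3

theorem eta_Ld {f : Om} {N : ℕ} (hf : f ∈ AL N) (s : ℕ) :
    Ld N (Sr N N) (eta f N s) (3 ^ s) ((f * bb N) ^ 3 ^ s) := by
  induction s with
  | zero =>
    have h := (Ld.Upow (S := Sr N N) (N := N) 1).mul
      (Ld.const ((Sr N N).mul_mem (f_Sr hf) (bb_Sr N)))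
    rw [eta, ww]
    convert h using 1 <;> ring
  | succ s ih =>
    rw [eta]
    have h1 : Ld N (Sr N N) (pw (f • dl) s (pw (f • dl) s (eta f N s))) (3 ^ (s + 1)) 0 := by
      apply Ld.up (d := 3 ^ s) (a := pw (f • dl) s (pw (f • dl) s ((f * bb N) ^ 3 ^ s)))
      · exact (ih.der _ (fun y hy => pw_Sr hf s hy) (pw_const s (U_mem_F N 0))).der _
          (fun y hy => pw_Sr hf s hy) (pw_const s (U_mem_F N 0))
      · exact Nat.pow_lt_pow_right (by norm_num) (Nat.lt_succ_self s)
    have h2 := (ih.mul ih).mul ih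
    have h3 := h1.add (show Ld N (Sr N N) (eta f N s ^ 3) (3 ^ (s + 1))
        ((f * bb N) ^ 3 ^ (s + 1)) by
      convert h2 using 1
      · ring
      · rw [pow_succ]; ring
      · rw [← pow_add, ← pow_add]
        congr 1
        rw [pow_succ]; ring)
    rw [zero_add] at h3
    exact h3

theorem eta_F {f : Om} {N : ℕ} (hf : f ∈ F N) (s : ℕ) : eta f N s ∈ F N := by
  induction s with
  | zero => exact (F N).mul_mem hf (ww_mem_F N)
  | succ s ih =>
    exact (F N).add_mem (pw_F hf le_rfl s (pw_F hf le_rfl s ih)) ((F N).pow_mem ih 3)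

/-- `η_s - U y_s` is a constant -/
theorem eta_sub (f : Om) (N s : ℕ) : eta f N s - v (Var.U N) * ys f N s ∈ F 0 := by
  induction s with
  | zero =>
    have : eta f N 0 - v (Var.U N) * ys f N 0 = 0 := by
      rw [eta, ww, ys]
      simp only [pow_zero, Nat.sub_self, Function.iterate_zero, id]
      ring
    rw [this]; exact (F 0).zero_mem
  | succ s ih =>
    have h1 : ys f N (s + 1) = pw (f • dl) s (pw (f • dl) s (ys f N s)) := by
      rw [pw_apply, pw_apply, ys, ys, ← Function.iterate_add_apply, ← Function.iterate_add_apply]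
      congr 1
      have : 0 < 3 ^ s := by positivity
      rw [pow_succ]; omega
    have h2 : pw (f • dl) s (pw (f • dl) s (eta f N s - v (Var.U N) * ys f N s)) = 0 := by
      rw [pw_const s ih, map_zero]
    have h3 : eta f N (s + 1) - v (Var.U N) * ys f N (s + 1) = eta f N s ^ 3 := by
      rw [eta, h1]
      rw [map_sub, map_sub, D_mul_const _ (pw_const s (U_mem_F N 0)),
        D_mul_const _ (pw_const s (U_mem_F N 0))] at h2
      linear_combination h2
    rw [h3]
    exact cube_mem _

/-- powers of `D` commute -/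
theorem pw_comm (D : Derivation ℤ Om Om) (s : ℕ) (y : Om) : D (pw D s y) = pw D s (D y) := by
  rw [pw_apply, pw_apply]
  exact (Function.iterate_succ_apply' D (3 ^ s) y).symm.trans
    (Function.iterate_succ_apply D (3 ^ s) y)

/-- the operator `P(D)` -/
theorem exists_op {f : Om} {N : ℕ} (hf : f ∈ AL N) (hf0 : f ≠ 0) :
    ∃ (S : ℕ) (a : ℕ → Om) (Δ : Derivation ℤ Om Om) (μ : Om), (∀ s, a s ∈ F 0) ∧
      (∀ y, Δ y = ∑ s ∈ Finset.range (S + 1), a s * pw (f • dl) s y) ∧
      (∀ y ∈ F N, Δ y = 0) ∧ Δ (xs N) = μ * xs N ∧ μ ∈ F 0 ∧ μ ≠ 0 := by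
  classical
  obtain ⟨S, a, ha, haS, hrel⟩ := exists_rel hf
  let Δ : Derivation ℤ Om Om := ∑ s ∈ Finset.range (S + 1), a s • pw (f • dl) s
  have hΔ : ∀ y, Δ y = ∑ s ∈ Finset.range (S + 1), a s * pw (f • dl) s y := by
    intro y
    simp only [Δ]
    induction (Finset.range (S + 1)) using Finset.induction_on with
    | empty => simp
    | insert a s ha ih =>
      rw [Finset.sum_insert ha, Finset.sum_insert ha, Derivation.add_apply, ih]
      rfl
  let μ := ∑ s ∈ Finset.range (S + 1), a s * eta f N s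
  have hμx : Δ (xs N) = μ * xs N := by
    rw [hΔ, Finset.sum_mul]
    apply Finset.sum_congr rfl
    intro s _
    rw [pw_x]; ring
  have hx0 : xs N ≠ 0 := v_ne _
  have hfb : f * bb N ≠ 0 := mul_ne_zero hf0 (bb_ne N)
  have hLd : Ld N (Sr N N) μ (3 ^ S) (a S * (f * bb N) ^ 3 ^ S) := by
    have hS : Sr N 0 ≤ Sr N N := fun y hy => ⟨hy.1, F_mono (Nat.zero_le N) hy.2⟩
    have h1 := Ld.sum (N := N) (S := Sr N N) (d := 3 ^ S) (Finset.range (S + 1))
      (fun s => a s * eta f N s)
      (fun s => if s = S then a S * (f * bb N) ^ 3 ^ S else 0) (by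
      intro s hs
      have h2 : Ld N (Sr N N) (a s * eta f N s) (0 + 3 ^ s) (a s * (f * bb N) ^ 3 ^ s) :=
        (Ld.const (hS (ha s))).mul (eta_Ld hf s)
      rw [zero_add] at h2
      by_cases h : s = S
      · subst h
        simpa using h2
      · simp only [if_neg h]
        apply h2.up
        apply Nat.pow_lt_pow_right (by norm_num)
        have := Finset.mem_range.mp hs
        omega)
    rw [Finset.sum_ite_eq' (Finset.range (S + 1)) S] at h1
    simpa using h1
  have hμ0 : μ ≠ 0 := by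
    intro h
    rw [h] at hLd
    exact mul_ne_zero haS (pow_ne_zero _ hfb) (hLd.eq_zero (Sr_le_R1 N N))
  refine ⟨S, a, Δ, μ, fun s => (ha s).2, hΔ, fun y hy => ?_, hμx, ?_, hμ0⟩
  · rw [hΔ]; exact hrel y hy
  · -- D μ = 0
    set D := f • dl with hD
    have hcomm : ∀ y, D (Δ y) = Δ (D y) := by
      intro y
      rw [hΔ, hΔ, map_sum]
      apply Finset.sum_congr rfl
      intro s _
      rw [D_mul_const D (D_const (ha s).2), pw_comm]
    have h1 : D (μ * xs N) = Δ (eta f N 0 * xs N) := by
      rw [← hμx, hcomm]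
      congr 1
      exact pw_x f N 0
    have hx1 : D (xs N) = eta f N 0 * xs N := pw_x f N 0
    rw [Derivation.leibniz, Derivation.leibniz, smul_eq_mul, smul_eq_mul, smul_eq_mul,
      smul_eq_mul, hx1, hμx, hΔ (eta f N 0), hrel _ (eta_F (AL_le_F hf) 0)] at h1
    have h2 : xs N * D μ = 0 := by linear_combination h1
    have h3 : D μ = 0 := (mul_eq_zero.mp h2).resolve_left hx0
    apply ker_dl
    rw [hD, D_apply] at h3
    exact (mul_eq_zero.mp h3).resolve_left hf0

end Pool.Agent.LieInf
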