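import Mathlib
import Pool.Agent.LieInf.Rel

/-! The Lie algebra `Om δ` and its subalgebras. -/

open MvPolynomial

set_option linter.unusedVariables false

namespace Pool.Agent.LieInf

/-- the bracket `{f, g} = f δ g - g δ f` -/
noncomputable def br (f g : Om) : Om := f * dl g - g * dl f

theorem br_add_left (a b c : Om) : br (a + b) c = br a c + br b c := by
  simp only [br, map_add]; ring

theorem br_add_right (a b c : Om) : br a (b + c) = br a b + br a c := by
  simp only [br, map_add]; ring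

theorem br_self (a : Om) : br a a = 0 := by simp [br]

theorem br_jac (a b c : Om) : br a (br b c) = br (br a b) c + br b (br a c) := by
  simp only [br, map_sub, Derivation.leibniz, smul_eq_mul]
  ring

theorem br_smul {t : Om} (ht : t ∈ F 0) (a b : Om) : br a (t * b) = t * br a b := by
  simp only [br, D_mul_const dl (dl_const ht)]
  ring

/-- a `k`-subspace closed under the bracket -/
structure Clo (V : Submodule K0 Om) : Prop where
  br_mem : ∀ a ∈ V, ∀ b ∈ V, br a b ∈ V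

variable {V : Submodule K0 Om}

theorem smul_mem' (V : Submodule K0 Om) {c y : Om} (hc : c ∈ F 0) (hy : y ∈ V) : c * y ∈ V :=
  V.smul_mem (⟨c, hc⟩ : K0) hy

/-- the shifted space `{z ∈ F_{N+1} : f z ∈ V}` -/
def Vf (V : Submodule K0 Om) (f : Om) (N : ℕ) : Submodule K0 Om where
  carrier := {z | z ∈ F (N + 1) ∧ f * z ∈ V}
  add_mem' := by
    rintro a b ⟨ha, ha'⟩ ⟨hb, hb'⟩
    refine ⟨(F _).add_mem ha hb, ?_⟩
    rw [mul_add]; exact V.add_mem ha' hb'
  zero_mem' := ⟨(F _).zero_mem, by rw [mul_zero]; exact V.zero_mem⟩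
  smul_mem' := by
    rintro c a ⟨ha, ha'⟩
    refine ⟨(F _).mul_mem (F_mono (Nat.zero_le _) c.2) ha, ?_⟩
    rw [mul_smul_comm]; exact V.smul_mem _ ha'

theorem Vf_D (hV : Clo V) {f : Om} {N : ℕ} (hf : f ∈ F N) (hfV : f ∈ V) {z : Om}
    (hz : z ∈ Vf V f N) : (f • dl) z ∈ Vf V f N := by
  refine ⟨D_F hf (Nat.le_succ N) hz.1, ?_⟩
  have h := hV.br_mem f hfV (f * z) hz.2
  have e : br f (f * z) = f * (f • dl) z := by
    rw [br, D_apply, Derivation.leibniz, smul_eq_mul, smul_eq_mul]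
    ring
  rw [← e]; exact h

theorem Vf_pw (hV : Clo V) {f : Om} {N : ℕ} (hf : f ∈ F N) (hfV : f ∈ V) (s : ℕ) {z : Om}
    (hz : z ∈ Vf V f N) : pw (f • dl) s z ∈ Vf V f N := by
  rw [pw_apply]
  exact iter_mem (S := (Vf V f N : Set Om)) _ (fun y hy => Vf_D hV hf hfV hy) _ hz

/-- components `W_j = {w ∈ F_N : w x^j ∈ Vf}` -/
def Wj (V : Submodule K0 Om) (f : Om) (N j : ℕ) : Submodule K0 Om where
  carrier := {w | w ∈ F N ∧ w * xs N ^ j ∈ Vf V f N}
  add_mem' := by
    rintro a b ⟨ha, ha'⟩ ⟨hb, hb'⟩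
    refine ⟨(F _).add_mem ha hb, ?_⟩
    rw [add_mul]; exact (Vf V f N).add_mem ha' hb'
  zero_mem' := ⟨(F _).zero_mem, by rw [zero_mul]; exact (Vf V f N).zero_mem⟩
  smul_mem' := by
    rintro c a ⟨ha, ha'⟩
    refine ⟨(F _).mul_mem (F_mono (Nat.zero_le _) c.2) ha, ?_⟩
    rw [smul_mul_assoc]; exact (Vf V f N).smul_mem _ ha'

theorem pw_xpow (f : Om) (N s j : ℕ) (w : Om) : pw (f • dl) s (w * xs N ^ j) =
    (pw (f • dl) s w + j * eta f N s * w) * xs N ^ j := by
  rw [Derivation.leibniz, Derivation.leibniz_pow, pw_x]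
  simp only [smul_eq_mul, nsmul_eq_mul]
  cases j with
  | zero => simp
  | succ j =>
    simp only [Nat.add_sub_cancel]
    ring

theorem Wj_full {f : Om} {N : ℕ} (hV : Clo V) (hf : f ∈ AL N) (hf0 : f ≠ 0) (hfV : f ∈ V)
    (j : ℕ) (hj : (j : Om) ≠ 0) (h : ∃ w ∈ F N, w ≠ 0 ∧ w * xs N ^ j ∈ Vf V f N) :
    ∀ b ∈ F N, b * xs N ^ j ∈ V := by
  have hfF := AL_le_F hf
  have hW : Wj V f N j = Fs N := by
    apply simple hf hf0 j hj
    · intro w hw; exact hw.1
    · obtain ⟨w, hw, hw0, hw'⟩ := h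
      intro hbot
      have : w ∈ Wj V f N j := ⟨hw, hw'⟩
      rw [hbot, Submodule.mem_bot] at this
      exact hw0 this
    · intro s hs w hw
      have h1 : pw (f • dl) s w + j * eta f N s * w ∈ Wj V f N j := by
        refine ⟨(F N).add_mem (pw_F hfF le_rfl s hw.1)
          ((F N).mul_mem ((F N).mul_mem (natCast_mem _ j) (eta_F hfF s)) hw.1), ?_⟩
        rw [← pw_xpow]
        exact Vf_pw hV hfF hfV s hw.2
      have h2 : (j : Om) * (eta f N s - v (Var.U N) * ys f N s) ∈ F 0 :=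
        (F 0).mul_mem (natCast_mem _ j) (eta_sub f N s)
      have h3 := (Wj V f N j).sub_mem h1 (smul_mem' _ h2 hw)
      convert h3 using 1
      ring
  intro b hb
  have h1 : b / f ∈ Wj V f N j := by
    rw [hW]; exact (F N).div_mem hb hfF
  have h2 := h1.2.2
  have h3 : f * (b / f * xs N ^ j) = b * xs N ^ j := by
    field_simp
  rw [h3] at h2
  exact h2

/-- The main step. -/
theorem main_step {f : Om} {N : ℕ} (hN : 1 ≤ N) (hV : Clo V) (hf : f ∈ AL N) (hf0 : f ≠ 0)
    (hfV : f ∈ V) {y : Om} (hy : y ∈ V) (hyF : y ∈ F (N + 1)) (hyN : y ∉ F N) :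
    ∀ b ∈ F N, b ∈ V := by
  have hfF := AL_le_F hf
  have hx0 : xs N ≠ 0 := v_ne _
  have hw0 := ww_ne N
  have h3 := three_zero Om
  -- element of Vf
  have hz : y / f ∈ Vf V f N := by
    refine ⟨(F _).div_mem hyF (F_mono (Nat.le_succ N) hfF), ?_⟩
    rw [mul_div_cancel₀ _ hf0]; exact hy
  have hzN : y / f ∉ F N := by
    intro h
    apply hyN
    have := (F N).mul_mem h hfF
    rwa [div_mul_cancel₀ _ hf0] at this
  set z := y / f with hzdef
  obtain ⟨z0, h0, z1, h1, z2, h2, hze⟩ := decomp hz.1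
  change z = z0 + z1 * xs N + z2 * xs N ^ 2 at hze
  -- the operator
  obtain ⟨S, a, Δ, μ, ha, hΔ, hΔF, hΔx, hμ, hμ0⟩ := exists_op hf hf0
  have hstab : ∀ t ∈ Vf V f N, Δ t ∈ Vf V f N := by
    intro t ht
    rw [hΔ]
    apply (Vf V f N).sum_mem
    intro s _
    exact smul_mem' _ (ha s) (Vf_pw hV hfF hfV s ht)
  have hcomp : ∀ w0 w1 w2 : Om, w0 ∈ F N → w1 ∈ F N → w2 ∈ F N →
      Δ (w0 + w1 * xs N + w2 * xs N ^ 2) = μ * (w1 * xs N + 2 * w2 * xs N ^ 2) := by
    intro w0 w1 w2 g0 g1 g2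
    rw [map_add, map_add, hΔF _ g0, D_mul_const Δ (hΔF _ g1), D_mul_const Δ (hΔF _ g2),
      Derivation.leibniz_pow, hΔx]
    simp only [smul_eq_mul, nsmul_eq_mul, Nat.cast_ofNat, Nat.add_one_sub_one, pow_one]
    ring
  have hμi : μ⁻¹ ∈ F 0 := (F 0).inv_mem hμ
  have t1 : z1 * xs N + 2 * z2 * xs N ^ 2 ∈ Vf V f N := by
    have := smul_mem' _ hμi (hstab z hz)
    rw [hze, hcomp z0 z1 z2 h0 h1 h2, inv_mul_cancel_left₀ hμ0] at this
    exact this
  have t2 : z1 * xs N + z2 * xs N ^ 2 ∈ Vf V f N := by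
    have := smul_mem' _ hμi (hstab _ t1)
    have e : z1 * xs N + 2 * z2 * xs N ^ 2 = 0 + z1 * xs N + (2 * z2) * xs N ^ 2 := by ring
    have h22 : 2 * z2 ∈ F N := (F N).mul_mem (by
      have := natCast_mem (F N) 2; exact_mod_cast this) h2
    rw [e, hcomp 0 z1 (2 * z2) (F N).zero_mem h1 h22, inv_mul_cancel_left₀ hμ0] at this
    convert this using 1
    linear_combination (-z2 * xs N ^ 2) * h3
  have s2 : z2 * xs N ^ 2 ∈ Vf V f N := by
    have := (Vf V f N).sub_mem t1 t2
    convert this using 1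
    ring
  have s1 : z1 * xs N ^ 1 ∈ Vf V f N := by
    have := (Vf V f N).sub_mem t2 s2
    convert this using 1
    ring
  have hone : ((1 : ℕ) : Om) ≠ 0 := by simp
  -- conversions between the two components
  have hx3 : xs N ^ 3 ∈ F 0 := cube_mem _
  have hx3' : (xs N ^ 3)⁻¹ ∈ F 0 := (F 0).inv_mem hx3
  have hw00 : ww 0 * xs 0 ∈ F N :=
    (F N).mul_mem (F_mono (Nat.zero_le N) (ww_mem_F 0)) (x_mem_F hN)
  have hw0x : ww 0 * xs 0 ≠ 0 := mul_ne_zero (ww_ne 0) (v_ne _)
  have hbr : ∀ j : ℕ, br (xs N ^ j) (xs 0 * xs N ^ j) = xs N ^ (2 * j) * (ww 0 * xs 0) := by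
    intro j
    rw [br, Derivation.leibniz, dl_x, smul_eq_mul, smul_eq_mul, two_mul, pow_add]
    ring
  have hx0F : xs 0 ∈ F N := x_mem_F hN
  have c12 : (∀ b ∈ F N, b * xs N ^ 1 ∈ V) → ∀ b ∈ F N, b * xs N ^ 2 ∈ V := by
    intro hall
    apply Wj_full hV hf hf0 hfV 2 two_ne
    refine ⟨ww 0 * xs 0 / f, (F N).div_mem hw00 hfF, div_ne_zero hw0x hf0, ?_, ?_⟩
    · exact (F _).mul_mem (F_mono (Nat.le_succ N) ((F N).div_mem hw00 hfF))
        ((F _).pow_mem (x_mem_F (Nat.lt_succ_self N)) 2)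
    · have e1 := hall 1 (F N).one_mem
      rw [one_mul] at e1
      have := hV.br_mem _ e1 _ (hall (xs 0) hx0F)
      rw [hbr] at this
      convert this using 1
      field_simp
  have c21 : (∀ b ∈ F N, b * xs N ^ 2 ∈ V) → ∀ b ∈ F N, b * xs N ^ 1 ∈ V := by
    intro hall
    apply Wj_full hV hf hf0 hfV 1 hone
    refine ⟨ww 0 * xs 0 / f, (F N).div_mem hw00 hfF, div_ne_zero hw0x hf0, ?_, ?_⟩
    · exact (F _).mul_mem (F_mono (Nat.le_succ N) ((F N).div_mem hw00 hfF))
        ((F _).pow_mem (x_mem_F (Nat.lt_succ_self N)) 1)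
    · have e1 := hall 1 (F N).one_mem
      rw [one_mul] at e1
      have := smul_mem' V hx3' (hV.br_mem _ e1 _ (hall (xs 0) hx0F))
      rw [hbr] at this
      convert this using 1
      field_simp
  have hboth : (∀ b ∈ F N, b * xs N ^ 1 ∈ V) ∧ (∀ b ∈ F N, b * xs N ^ 2 ∈ V) := by
    by_cases hz1 : z1 = 0
    · have hz2 : z2 ≠ 0 := by
        rintro rfl
        apply hzN
        rw [hze, hz1]
        simpa using h0
      have := Wj_full hV hf hf0 hfV 2 two_ne ⟨z2, h2, hz2, s2⟩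
      exact ⟨c21 this, this⟩
    · have := Wj_full hV hf hf0 hfV 1 hone ⟨z1, h1, hz1, s1⟩
      exact ⟨this, c12 this⟩
  obtain ⟨A1, A2⟩ := hboth
  -- conclusion
  have hfin : ∀ b ∈ F N, ww N * b ∈ V := by
    intro b hb
    have hx1 := A1 1 (F N).one_mem
    have hx2 := A2 1 (F N).one_mem
    rw [one_mul] at hx1 hx2
    have e1 := smul_mem' V hx3' (hV.br_mem _ hx1 _ (A2 b hb))
    have e2 := smul_mem' V hx3' (hV.br_mem _ (A1 b hb) _ hx2)
    have E1 : (xs N ^ 3)⁻¹ * br (xs N ^ 1) (b * xs N ^ 2) = dl b + ww N * b := by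
      have : br (xs N ^ 1) (b * xs N ^ 2) = xs N ^ 3 * (dl b + ww N * b) := by
        rw [br, Derivation.leibniz, Derivation.leibniz_pow, pow_one, dl_x]
        simp only [smul_eq_mul, nsmul_eq_mul, Nat.cast_ofNat]
        ring
      rw [this, inv_mul_cancel_left₀ (pow_ne_zero 3 hx0)]
    have E2 : (xs N ^ 3)⁻¹ * br (b * xs N ^ 1) (xs N ^ 2) = ww N * b - dl b := by
      have : br (b * xs N ^ 1) (xs N ^ 2) = xs N ^ 3 * (ww N * b - dl b) := by
        rw [br, Derivation.leibniz_pow, pow_one, Derivation.leibniz, dl_x]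
        simp only [smul_eq_mul, nsmul_eq_mul, Nat.cast_ofNat]
        ring
      rw [this, inv_mul_cancel_left₀ (pow_ne_zero 3 hx0)]
    rw [E1] at e1
    rw [E2] at e2
    have e3 := V.add_mem e1 e2
    have e4 : ((2 : ℕ) : Om)⁻¹ ∈ F 0 := (F 0).inv_mem (natCast_mem _ 2)
    have e5 := smul_mem' V e4 e3
    convert e5 using 1
    rw [show dl b + ww N * b + (ww N * b - dl b) = ((2 : ℕ) : Om) * (ww N * b) by
      push_cast; ring, inv_mul_cancel_left₀ two_ne]
  intro b hb
  have := hfin (b / ww N) ((F N).div_mem hb (ww_mem_F N))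
  rwa [mul_div_cancel₀ _ hw0] at this

/-- an infinite-dimensional bracket-closed subspace is everything -/
theorem clo_top (hV : Clo V) (hinf : ¬ FiniteDimensional K0 V) : V = ⊤ := by
  -- escaping elements
  have hesc : ∀ N1 : ℕ, ∃ N, N1 ≤ N ∧ ∃ y ∈ V, y ∈ F (N + 1) ∧ y ∉ F N := by
    intro N1
    have h1 : ¬ V ≤ Fs N1 := by
      intro h
      exact hinf (Submodule.finiteDimensional_of_le h)
    obtain ⟨y, hy, hyN⟩ := SetLike.not_le_iff_exists.mp h1
    have hex := F_total y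
    classical
    let M := Nat.find hex
    have hM : y ∈ F M := Nat.find_spec hex
    have hM1 : N1 < M := by
      by_contra hcon
      exact hyN (F_mono (not_lt.mp hcon) hM)
    refine ⟨M - 1, by omega, y, hy, ?_, ?_⟩
    · rw [Nat.sub_add_cancel (by omega)]; exact hM
    · exact Nat.find_min hex (by omega)
  -- a nonzero element in the image of A
  have hne : V ≠ ⊥ := by
    rintro rfl
    exact hinf inferInstance
  obtain ⟨g, hg, hg0⟩ := Submodule.exists_mem_ne_zero_of_ne_bot hne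
  obtain ⟨c, hc, hc0, a, ha⟩ := scale g
  obtain ⟨N0, hN0⟩ := exists_AL a
  have hf : c * g ∈ V := smul_mem' V hc hg
  have hf0 : c * g ≠ 0 := mul_ne_zero hc0 hg0
  rw [eq_top_iff]
  intro b _
  obtain ⟨Mb, hMb⟩ := F_total b
  obtain ⟨N, hN, y, hy, hyF, hyN⟩ := hesc (max (max N0 Mb) 1)
  have hNN0 : N0 ≤ N := by omega
  have hNMb : Mb ≤ N := by omega
  have hN1 : 1 ≤ N := by omega
  have hfA : c * g ∈ AL N := by
    rw [ha]; exact AL_mono hNN0 hN0
  exact main_step hN1 hV hfA hf0 hf hy hyF hyN b (F_mono hNMb hMb)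

/-! ### the Lie algebra -/

/-- the underlying type of the Lie algebra -/
def LL : Type := Om

noncomputable instance : AddCommGroup LL := inferInstanceAs (AddCommGroup Om)
noncomputable instance : Module K0 LL := inferInstanceAs (Module K0 Om)

noncomputable instance : Bracket LL LL := ⟨fun a b => br a b⟩

theorem bracket_def (a b : LL) : ⁅a, b⁆ = br a b := rfl

noncomputable instance : LieRing LL where
  add_lie := br_add_left
  lie_add := br_add_right
  lie_self := br_self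
  leibniz_lie := br_jac

noncomputable instance : LieAlgebra K0 LL where
  lie_smul t a b := br_smul t.2 a b

theorem x_not_mem (N : ℕ) : xs N ∉ F N := by
  intro h
  have := h N le_rfl
  rw [xs, th_v, if_pos rfl] at this
  exact v_ne _ this

/-- `F_N` as a subalgebra -/
noncomputable def subN (N : ℕ) : LieSubalgebra K0 LL :=
  { Fs N with
    lie_mem' := by
      intro a b ha hb
      change br a b ∈ F N
      exact (F N).sub_mem ((F N).mul_mem ha (dl_F hb)) ((F N).mul_mem hb (dl_F ha)) }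

theorem main : ∃ (k : Type) (_ : Field k) (L : Type) (_ : LieRing L) (_ : LieAlgebra k L),
    (¬ ∃ S : Finset L, LieSubalgebra.lieSpan k L (S : Set L) = ⊤) ∧
      ∀ K : LieSubalgebra k L, K ≠ ⊤ → FiniteDimensional k K := by
  refine ⟨K0, inferInstance, LL, inferInstance, inferInstance, ?_, ?_⟩
  · rintro ⟨S, hS⟩
    classical
    have h0 : ∀ T : Finset Om, ∃ N, ∀ y ∈ T, y ∈ F N := by
      intro T
      induction T using Finset.induction_on with
      | empty => exact ⟨0, by simp⟩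
      | insert a T ha ih =>
        obtain ⟨N, hN⟩ := ih
        obtain ⟨M, hM⟩ := F_total a
        refine ⟨max N M, fun y hy => ?_⟩
        rw [Finset.mem_insert] at hy
        rcases hy with rfl | hy
        · exact F_mono (le_max_right _ _) hM
        · exact F_mono (le_max_left _ _) (hN y hy)
    have h1 : ∃ N, ∀ y ∈ S, (y : Om) ∈ F N := h0 S
    obtain ⟨N, hN⟩ := h1
    have h2 : LieSubalgebra.lieSpan K0 LL (S : Set LL) ≤ subN N :=
      LieSubalgebra.lieSpan_le.mpr (fun y hy => hN y hy)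
    rw [hS] at h2
    exact x_not_mem N (h2 (show (xs N : LL) ∈ (⊤ : LieSubalgebra K0 LL) from trivial))
  · intro K hK
    by_contra hinf
    apply hK
    have hclo : Clo (V := (K.toSubmodule : Submodule K0 Om)) :=
      ⟨fun a ha b hb => K.lie_mem ha hb⟩
    have htop := clo_top hclo hinf
    rw [eq_top_iff]
    intro y _
    have : (y : Om) ∈ (⊤ : Submodule K0 Om) := trivial
    rw [← htop] at this
    exact this

end Pool.Agent.LieInf
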